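import Pool.Agent.H452R4.LI.Defs

/-! Project LI: the bilinear prime sum from the mean value theorem. -/

set_option autoImplicit false

open Finset ArithmeticFunction MeasureTheory intervalIntegral

namespace Pool.Agent.H452R4.LI

namespace BIL

theorem ee_nonneg (A : Finset ℝ) (n : ℕ) : 0 ≤ EE A n := norm_nonneg _

theorem ee_empty (n : ℕ) : EE ∅ n = 0 := by simp [EE]

/-- `√2` -/
noncomputable def al : ℝ := Real.sqrt 2

theorem al_sq : al ^ 2 = 2 := Real.sq_sqrt (by norm_num)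

theorem al_pos : 0 < al := Real.sqrt_pos.2 (by norm_num)

theorem al_lo : (1414 / 1000 : ℝ) ≤ al := Real.le_sqrt_of_sq_le (by norm_num)

theorem al_hi : al ≤ 1415 / 1000 := by
  apply Real.sqrt_le_iff.2
  norm_num

theorem inv_al : al⁻¹ = al / 2 := by
  have h := al_sq
  have hp := al_pos
  field_simp
  linarith

theorem inv_pow_mul (j : ℕ) : al⁻¹ ^ j * 2 ^ j = al ^ j := by
  rw [← mul_pow]
  congr 1
  have h := al_sq
  have hp := al_pos
  field_simp
  linarith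

theorem geo (K : ℕ) : ∑ j ∈ range K, al ^ j ≤ 3 * al ^ K := by
  induction K with
  | zero => simp
  | succ K ih =>
    rw [Finset.sum_range_succ, pow_succ]
    have h1 : 0 < al ^ K := pow_pos al_pos K
    have h2 := al_lo
    nlinarith

theorem geo2 (K : ℕ) : ∑ j ∈ range K, ((j : ℝ) + 1) * al⁻¹ ^ j ≤
    12 - (7 / 2 * K + 12) * al⁻¹ ^ K := by
  induction K with
  | zero => simp
  | succ K ih =>
    rw [Finset.sum_range_succ, pow_succ]
    have h1 : 0 < al⁻¹ ^ K := pow_pos (inv_pos.2 al_pos) K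
    have h2 : al⁻¹ ≤ 7075 / 10000 := by
      rw [inv_al]
      have := al_hi
      linarith
    push_cast
    have h3 : (0 : ℝ) ≤ K := Nat.cast_nonneg K
    have h4 : ((K : ℝ) + 1) + (7 / 2 * (K + 1) + 12) * al⁻¹ ≤ 7 / 2 * K + 12 := by
      nlinarith
    nlinarith [mul_le_mul_of_nonneg_right h4 h1.le]

theorem dyadic (g : ℕ → ℝ) (K : ℕ) :
    ∑ n ∈ Ioc 1 (2 ^ K), g n = ∑ j ∈ range K, ∑ n ∈ Ioc (2 ^ j) (2 ^ (j + 1)), g n := by
  induction K with
  | zero => simp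
  | succ K ih =>
    rw [Finset.sum_range_succ, ← ih]
    exact (Finset.sum_Ioc_consecutive g Nat.one_le_two_pow
      (Nat.pow_le_pow_right (by norm_num) (Nat.le_succ K))).symm

theorem dyadic_le (g : ℕ → ℝ) (hg : ∀ n, 0 ≤ g n) (hg1 : g 1 = 0) (N K : ℕ) (hNK : N ≤ 2 ^ K) :
    ∑ n ∈ Ico 1 N, g n ≤ ∑ j ∈ range K, ∑ n ∈ Ioc (2 ^ j) (2 ^ (j + 1)), g n := by
  rw [← dyadic]
  have h1 : ∑ n ∈ Ico 1 N, g n ≤ ∑ n ∈ insert 1 (Ioc 1 (2 ^ K)), g n := by
    apply Finset.sum_le_sum_of_subset_of_nonneg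
    · intro n hn
      rw [Finset.mem_Ico] at hn
      rw [Finset.mem_insert, Finset.mem_Ioc]
      omega
    · intro n _ _
      exact hg n
  rw [Finset.sum_insert (by simp), hg1, zero_add] at h1
  exact h1

theorem dens_nonneg (A : Finset ℝ) (w : ℝ) (h : dens A w) : 0 ≤ w := by
  have := h 0
  exact le_trans (Nat.cast_nonneg _) this

theorem cs (A B : Finset ℝ) (S : Finset ℕ) (M w : ℝ) (hM : 0 ≤ M) (hw : 0 ≤ w)
    (hA : ∑ n ∈ S, EE A n ^ 2 ≤ M * A.card * w) (hB : ∑ n ∈ S, EE B n ^ 2 ≤ M * B.card * w) :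
    ∑ n ∈ S, EE A n * EE B n ≤ M * w * Real.sqrt (A.card * B.card) := by
  have h1 := Finset.sum_mul_sq_le_sq_mul_sq S (EE A) (EE B)
  have h2 : (∑ n ∈ S, EE A n ^ 2) * (∑ n ∈ S, EE B n ^ 2) ≤
      (M * A.card * w) * (M * B.card * w) := by
    apply mul_le_mul hA hB
    · exact Finset.sum_nonneg fun n _ => sq_nonneg _
    · positivity
  have h3 : (M * w * Real.sqrt (A.card * B.card)) ^ 2 = (M * A.card * w) * (M * B.card * w) := by
    rw [mul_pow, Real.sq_sqrt (by positivity)]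
    ring
  have h4 : (∑ n ∈ S, EE A n * EE B n) ^ 2 ≤ (M * w * Real.sqrt (A.card * B.card)) ^ 2 := by
    rw [h3]
    exact h1.trans h2
  exact le_trans (le_abs_self _) (abs_le_of_sq_le_sq h4 (by positivity))

theorem block (j n : ℕ) (hn : n ∈ Ioc (2 ^ j) (2 ^ (j + 1))) :
    vonMangoldt n * (n : ℝ) ^ (-(1 / 2 : ℝ)) ≤ ((j : ℝ) + 1) * al⁻¹ ^ j := by
  rw [Finset.mem_Ioc] at hn
  have hn1 : (2 : ℝ) ^ j ≤ n := by exact_mod_cast hn.1.le
  have hn2 : (n : ℝ) ≤ 2 ^ (j + 1) := by exact_mod_cast hn.2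
  have hj : (0 : ℝ) < 2 ^ j := by positivity
  have hnpos : (0 : ℝ) < n := lt_of_lt_of_le hj hn1
  have h1 : vonMangoldt n ≤ (j : ℝ) + 1 := by
    refine vonMangoldt_le_log.trans ?_
    have h2 : Real.log n ≤ Real.log (2 ^ (j + 1)) := Real.log_le_log hnpos hn2
    rw [Real.log_pow] at h2
    have h3 : Real.log 2 ≤ 1 := by
      have := Real.log_two_lt_d9
      linarith
    push_cast at h2
    have h4 : ((j : ℝ) + 1) * Real.log 2 ≤ ((j : ℝ) + 1) * 1 :=
      mul_le_mul_of_nonneg_left h3 (by positivity)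
    linarith
  have h5 : (n : ℝ) ^ (-(1 / 2 : ℝ)) ≤ al⁻¹ ^ j := by
    rw [Real.rpow_neg hnpos.le, ← Real.sqrt_eq_rpow, inv_pow]
    apply inv_anti₀ (pow_pos al_pos j)
    apply Real.le_sqrt_of_sq_le
    rw [← pow_mul, mul_comm j 2, pow_mul, al_sq]
    exact hn1
  exact mul_le_mul h1 h5 (by positivity) (by positivity)

theorem kbound (N : ℕ) (hN : 2 ≤ N) :
    (Nat.clog 2 N : ℝ) * al ^ (Nat.clog 2 N) ≤ 3 * (Real.sqrt N * (1 + Real.log N)) := by
  have h1 : 2 ^ (Nat.clog 2 N).pred < N := Nat.pow_pred_clog_lt_self (by norm_num) (by omega)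
  have h2 : 0 < Nat.clog 2 N := Nat.clog_pos (by norm_num) hN
  obtain ⟨m, hm⟩ : ∃ m, Nat.clog 2 N = m + 1 := ⟨Nat.clog 2 N - 1, by omega⟩
  rw [hm] at h1 ⊢
  have h3 : (2 : ℕ) ^ m < N := h1
  have h4 : (2 : ℝ) ^ m ≤ N := by exact_mod_cast h3.le
  have h5 : al ^ m ≤ Real.sqrt N := by
    apply Real.le_sqrt_of_sq_le
    rw [← pow_mul, mul_comm m 2, pow_mul, al_sq]
    exact h4
  have hN0 : (0 : ℝ) < N := by positivity
  have h6 : (m : ℝ) * Real.log 2 ≤ Real.log N := by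
    rw [← Real.log_pow]
    exact Real.log_le_log (by positivity) h4
  have h7 := Real.log_two_gt_d9
  have h8 : (m : ℝ) ≤ 3 / 2 * Real.log N := by
    have hm0 : (0 : ℝ) ≤ m := Nat.cast_nonneg m
    nlinarith
  have h9 : 0 ≤ Real.log N := le_trans (by positivity) h6
  have h10 := al_hi
  have h11 := al_pos
  have h12 : ((m : ℝ) + 1) * al ≤ 3 * (1 + Real.log N) := by
    have : ((m : ℝ) + 1) * al ≤ (3 / 2 * Real.log N + 1) * (1415 / 1000) := by
      apply mul_le_mul _ h10 h11.le (by positivity)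
      linarith
    linarith
  push_cast
  rw [pow_succ]
  calc ((m : ℝ) + 1) * (al ^ m * al) = al ^ m * (((m : ℝ) + 1) * al) := by ring
    _ ≤ Real.sqrt N * (3 * (1 + Real.log N)) := by
        apply mul_le_mul h5 h12 (by positivity) (by positivity)
    _ = 3 * (Real.sqrt N * (1 + Real.log N)) := by ring

end BIL

open BIL in
/-- **BIL** -/
theorem bil : S_MV → S_BIL := by
  rintro ⟨C, hC, h⟩
  refine ⟨12 * C, by positivity, ?_⟩
  intro A B T w N hT hN hA hB hdA hdB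
  have hw : 0 ≤ w := dens_nonneg A w hdA
  have hNpos : (1 : ℝ) ≤ N := by exact_mod_cast hN
  have hlog : 0 ≤ Real.log N := Real.log_nonneg hNpos
  set R : ℝ := Real.sqrt (A.card * B.card) with hR
  have hR0 : 0 ≤ R := Real.sqrt_nonneg _
  rcases Nat.lt_or_ge N 2 with h2 | h2
  · have h3 : N = 1 := by omega
    rw [h3]
    simp only [Finset.Ico_self, Finset.sum_empty]
    rw [Nat.cast_one, Real.log_one]
    positivity
  set K := Nat.clog 2 N with hK
  have hNK : N ≤ 2 ^ K := Nat.le_pow_clog (by norm_num) N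
  have hg : ∀ n : ℕ, 0 ≤ vonMangoldt n * (n : ℝ) ^ (-(1 / 2 : ℝ)) * (EE A n * EE B n) := by
    intro n
    have h3 : 0 ≤ vonMangoldt n := vonMangoldt_nonneg
    have h4 := ee_nonneg A n
    have h5 := ee_nonneg B n
    positivity
  have hd := dyadic_le (fun n : ℕ => vonMangoldt n * (n : ℝ) ^ (-(1 / 2 : ℝ)) * (EE A n * EE B n))
    hg (by simp) N K hNK
  refine le_trans hd ?_
  have hblk : ∀ j ∈ range K, ∑ n ∈ Ioc (2 ^ j) (2 ^ (j + 1)),
      vonMangoldt n * (n : ℝ) ^ (-(1 / 2 : ℝ)) * (EE A n * EE B n) ≤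
      C * w * R * ((K : ℝ) * al ^ j + T * (((j : ℝ) + 1) * al⁻¹ ^ j)) := by
    intro j hj
    have hjK : (j : ℝ) + 1 ≤ K := by
      have := Finset.mem_range.1 hj
      exact_mod_cast this
    have h3 : ∑ n ∈ Ioc (2 ^ j) (2 ^ (j + 1)),
        vonMangoldt n * (n : ℝ) ^ (-(1 / 2 : ℝ)) * (EE A n * EE B n) ≤
        ∑ n ∈ Ioc (2 ^ j) (2 ^ (j + 1)), (((j : ℝ) + 1) * al⁻¹ ^ j) * (EE A n * EE B n) := by
      apply Finset.sum_le_sum
      intro n hn
      exact mul_le_mul_of_nonneg_right (block j n hn) (mul_nonneg (ee_nonneg A n) (ee_nonneg B n))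
    rw [← Finset.mul_sum] at h3
    have hA' := h A T w (2 ^ j) hT Nat.one_le_two_pow hA hdA
    have hB' := h B T w (2 ^ j) hT Nat.one_le_two_pow hB hdB
    have e : 2 * 2 ^ j = 2 ^ (j + 1) := by ring
    rw [e] at hA' hB'
    push_cast at hA' hB'
    have h4 := cs A B (Ioc (2 ^ j) (2 ^ (j + 1))) (C * (2 ^ j + T)) w (by positivity) hw hA' hB'
    have hb : 0 ≤ al⁻¹ ^ j := pow_nonneg (inv_nonneg.2 al_pos.le) j
    have h5 : (((j : ℝ) + 1) * al⁻¹ ^ j) * ∑ n ∈ Ioc (2 ^ j) (2 ^ (j + 1)), EE A n * EE B n ≤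
        (((j : ℝ) + 1) * al⁻¹ ^ j) * (C * (2 ^ j + T) * w * R) :=
      mul_le_mul_of_nonneg_left h4 (by positivity)
    have h6 : (((j : ℝ) + 1) * al⁻¹ ^ j) * (C * (2 ^ j + T) * w * R) =
        C * w * R * (((j : ℝ) + 1) * (al⁻¹ ^ j * 2 ^ j) + T * (((j : ℝ) + 1) * al⁻¹ ^ j)) := by
      ring
    rw [inv_pow_mul] at h6
    have h7 : ((j : ℝ) + 1) * al ^ j ≤ (K : ℝ) * al ^ j :=
      mul_le_mul_of_nonneg_right hjK (pow_nonneg al_pos.le j)
    have h8 : C * w * R * (((j : ℝ) + 1) * al ^ j + T * (((j : ℝ) + 1) * al⁻¹ ^ j)) ≤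
        C * w * R * ((K : ℝ) * al ^ j + T * (((j : ℝ) + 1) * al⁻¹ ^ j)) := by
      apply mul_le_mul_of_nonneg_left _ (by positivity)
      linarith
    linarith
  refine le_trans (Finset.sum_le_sum hblk) ?_
  rw [← Finset.mul_sum, Finset.sum_add_distrib, ← Finset.mul_sum, ← Finset.mul_sum]
  have g1 := geo K
  have g2 := geo2 K
  have g3 := kbound N h2
  have g4 : 0 ≤ al⁻¹ ^ K := pow_nonneg (inv_nonneg.2 al_pos.le) K
  have g5 : ∑ j ∈ range K, ((j : ℝ) + 1) * al⁻¹ ^ j ≤ 12 := by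
    have : 0 ≤ (7 / 2 * (K : ℝ) + 12) * al⁻¹ ^ K := by positivity
    linarith
  have g6 : (K : ℝ) * ∑ j ∈ range K, al ^ j ≤ 9 * (Real.sqrt N * (1 + Real.log N)) := by
    have : (K : ℝ) * ∑ j ∈ range K, al ^ j ≤ (K : ℝ) * (3 * al ^ K) :=
      mul_le_mul_of_nonneg_left g1 (Nat.cast_nonneg K)
    rw [← hK] at g3
    linarith
  have g7 : T * ∑ j ∈ range K, ((j : ℝ) + 1) * al⁻¹ ^ j ≤ T * 12 :=
    mul_le_mul_of_nonneg_left g5 (by linarith)
  have g8 : 0 ≤ Real.sqrt N * (1 + Real.log N) := by positivity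
  calc C * w * R * ((K : ℝ) * ∑ j ∈ range K, al ^ j +
        T * ∑ j ∈ range K, ((j : ℝ) + 1) * al⁻¹ ^ j) ≤
      C * w * R * (12 * (T + Real.sqrt N * (1 + Real.log N))) := by
        apply mul_le_mul_of_nonneg_left _ (by positivity)
        linarith
    _ = 12 * C * w * R * (T + Real.sqrt N * (1 + Real.log N)) := by ring

end Pool.Agent.H452R4.LI
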