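import Pool.Agent.H452R4.LI.Defs

/-!
# COR: the theorem on linear relations, from the general theorem (helper546)
-/

set_option autoImplicit false

open Finset ArithmeticFunction MeasureTheory intervalIntegral

namespace Pool.Agent.H452R4.LI

namespace CORaux

lemma dens_nonneg {A : Finset ℝ} {w : ℝ} (h : dens A w) : 0 ≤ w :=
  le_trans (Nat.cast_nonneg _) (h 0)

lemma dens_mono {A : Finset ℝ} {w w' : ℝ} (h : dens A w) (hw : w ≤ w') : dens A w' :=
  fun x => (h x).trans hw

lemma dens_interval {A : Finset ℝ} {w : ℝ} (h : dens A w) (y l : ℝ) (hl : 0 ≤ l) :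
    ((A.filter (fun a => y ≤ a ∧ a ≤ y + l)).card : ℝ) ≤ w * (l + 1) := by
  have hw := dens_nonneg h
  have hsub : A.filter (fun a => y ≤ a ∧ a ≤ y + l) ⊆
      (range (⌊l⌋₊ + 1)).biUnion
        (fun k : ℕ => A.filter (fun a => y + (k : ℝ) ≤ a ∧ a < y + (k : ℝ) + 1)) := by
    intro a ha
    rw [mem_filter] at ha
    obtain ⟨haA, h1, h2⟩ := ha
    rw [mem_biUnion]
    have h3 : 0 ≤ a - y := by linarith
    refine ⟨⌊a - y⌋₊, ?_, ?_⟩
    · rw [mem_range, Nat.lt_succ_iff]
      exact Nat.floor_le_floor (by linarith)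
    · rw [mem_filter]
      have h4 := Nat.floor_le h3
      have h5 := Nat.lt_floor_add_one (a - y)
      exact ⟨haA, by linarith, by linarith⟩
  have h1 : ((A.filter (fun a => y ≤ a ∧ a ≤ y + l)).card : ℝ) ≤
      ∑ k ∈ range (⌊l⌋₊ + 1),
        ((A.filter (fun a => y + (k : ℝ) ≤ a ∧ a < y + (k : ℝ) + 1)).card : ℝ) := by
    exact_mod_cast (card_le_card hsub).trans card_biUnion_le
  refine h1.trans ?_
  calc ∑ k ∈ range (⌊l⌋₊ + 1),
        ((A.filter (fun a => y + (k : ℝ) ≤ a ∧ a < y + (k : ℝ) + 1)).card : ℝ)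
      ≤ ∑ k ∈ range (⌊l⌋₊ + 1), w := sum_le_sum (fun k _ => h (y + k))
    _ = ((⌊l⌋₊ : ℝ) + 1) * w := by rw [sum_const, card_range, nsmul_eq_mul]; push_cast; ring
    _ ≤ w * (l + 1) := by
      have := Nat.floor_le hl
      nlinarith

lemma dens_image {A : Finset ℝ} {w : ℝ} (h : dens A w) {r : ℝ} (hr : r ≠ 0) :
    dens (A.image (fun a => r * a)) (w * (1 / |r| + 1)) := by
  intro x
  have hsub : (A.image (fun a => r * a)).filter (fun a => x ≤ a ∧ a < x + 1) ⊆
      (A.filter (fun a => min (x / r) ((x + 1) / r) ≤ a ∧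
        a ≤ min (x / r) ((x + 1) / r) + 1 / |r|)).image (fun a => r * a) := by
    intro z hz
    rw [mem_filter, mem_image] at hz
    obtain ⟨⟨a, haA, rfl⟩, h1, h2⟩ := hz
    rw [mem_image]
    refine ⟨a, ?_, rfl⟩
    rw [mem_filter]
    refine ⟨haA, ?_⟩
    rcases lt_or_gt_of_ne hr with hneg | hpos
    · have e0 : 1 / r < 0 := one_div_neg.mpr hneg
      have e1 : (x + 1) / r ≤ x / r := by
        rw [add_div]; linarith
      rw [min_eq_right e1, abs_of_neg hneg]
      constructor
      · rw [div_le_iff_of_neg hneg]; linarith [mul_comm a r]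
      · have e2 : (x + 1) / r + 1 / (-r) = x / r := by
          rw [one_div_neg_eq_neg_one_div, add_div]; ring
        rw [e2, le_div_iff_of_neg hneg]; linarith [mul_comm a r]
    · have e0 : 0 < 1 / r := one_div_pos.mpr hpos
      have e1 : x / r ≤ (x + 1) / r := by
        rw [add_div]; linarith
      rw [min_eq_left e1, abs_of_pos hpos]
      constructor
      · rw [div_le_iff₀ hpos]; linarith [mul_comm a r]
      · have e2 : x / r + 1 / r = (x + 1) / r := by rw [add_div]
        rw [e2, le_div_iff₀ hpos]; linarith [mul_comm a r]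
  have h1 := (card_le_card hsub).trans card_image_le
  have h2 := dens_interval h (min (x / r) ((x + 1) / r)) (1 / |r|) (by positivity)
  exact le_trans (by exact_mod_cast h1) h2

lemma avg {m : ℕ} (A : Fin m → Finset ℝ) (i0 i1 : Fin m) (h01 : i0 ≠ i1)
    (f : (Fin m → ℝ) → ℝ) :
    ∑ x ∈ Fintype.piFinset A, ∑ p ∈ A i0 ×ˢ A i1,
      f (Function.update (Function.update x i0 p.1) i1 p.2) =
    (((A i0).card : ℝ) * ((A i1).card : ℝ)) * ∑ x ∈ Fintype.piFinset A, f x := by
  have e1 : (((A i0).card : ℝ) * ((A i1).card : ℝ)) * ∑ x ∈ Fintype.piFinset A, f x =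
      ∑ x ∈ Fintype.piFinset A, ∑ _p ∈ A i0 ×ˢ A i1, f x := by
    rw [mul_sum]
    refine sum_congr rfl (fun x _ => ?_)
    rw [sum_const, card_product, nsmul_eq_mul]
    push_cast
    ring
  rw [e1, ← sum_product', ← sum_product']
  have key : ∀ z : (Fin m → ℝ) × (ℝ × ℝ), z ∈ Fintype.piFinset A ×ˢ (A i0 ×ˢ A i1) →
      ((Function.update (Function.update z.1 i0 z.2.1) i1 z.2.2, (z.1 i0, z.1 i1)) :
        (Fin m → ℝ) × (ℝ × ℝ)) ∈ Fintype.piFinset A ×ˢ (A i0 ×ˢ A i1) := by
    intro z hz
    rw [mem_product, mem_product, Fintype.mem_piFinset] at hz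
    rw [mem_product, mem_product, Fintype.mem_piFinset]
    refine ⟨?_, hz.1 i0, hz.1 i1⟩
    intro i
    dsimp only
    by_cases h1 : i = i1
    · subst h1
      rw [Function.update_self]
      exact hz.2.2
    · rw [Function.update_of_ne h1]
      by_cases h0 : i = i0
      · subst h0
        rw [Function.update_self]
        exact hz.2.1
      · rw [Function.update_of_ne h0]
        exact hz.1 i
  have inv : ∀ z : (Fin m → ℝ) × (ℝ × ℝ), z ∈ Fintype.piFinset A ×ˢ (A i0 ×ˢ A i1) →
      ((Function.update (Function.update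
        (Function.update (Function.update z.1 i0 z.2.1) i1 z.2.2) i0 (z.1 i0)) i1 (z.1 i1),
        ((Function.update (Function.update z.1 i0 z.2.1) i1 z.2.2) i0,
         (Function.update (Function.update z.1 i0 z.2.1) i1 z.2.2) i1)) :
        (Fin m → ℝ) × (ℝ × ℝ)) = z := by
    intro z _
    refine Prod.ext ?_ (Prod.ext ?_ ?_)
    · funext i
      dsimp only
      by_cases h1 : i = i1
      · subst h1
        rw [Function.update_self]
      · rw [Function.update_of_ne h1]
        by_cases h0 : i = i0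
        · subst h0
          rw [Function.update_self]
        · rw [Function.update_of_ne h0, Function.update_of_ne h1, Function.update_of_ne h0]
    · dsimp only
      rw [Function.update_of_ne h01, Function.update_self]
    · dsimp only
      rw [Function.update_self]
  exact sum_nbij'
    (fun z : (Fin m → ℝ) × (ℝ × ℝ) =>
      ((Function.update (Function.update z.1 i0 z.2.1) i1 z.2.2, (z.1 i0, z.1 i1)) :
        (Fin m → ℝ) × (ℝ × ℝ)))
    (fun z : (Fin m → ℝ) × (ℝ × ℝ) =>
      ((Function.update (Function.update z.1 i0 z.2.1) i1 z.2.2, (z.1 i0, z.1 i1)) :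
        (Fin m → ℝ) × (ℝ × ℝ))) key key inv inv (fun z _ => rfl)

end CORaux

open CORaux in
theorem cor : S_GEN → S_ZC → S_COR := by
  intro hG hZ hRH m r η ε hm hr hη hε
  obtain ⟨C, hC, hZ⟩ := hZ
  have hm0 : 0 < m := by omega
  have hm1 : 1 < m := by omega
  obtain ⟨i0, i1, h01⟩ : ∃ i0 i1 : Fin m, i0 ≠ i1 :=
    ⟨⟨0, hm0⟩, ⟨1, hm1⟩, by simp⟩
  obtain ⟨R, hR⟩ : ∃ R : ℝ, R = ∑ i, |r i| := ⟨_, rfl⟩
  have hRi : ∀ i, |r i| ≤ R := fun i => by
    rw [hR]
    exact single_le_sum (fun j _ => abs_nonneg (r j)) (mem_univ i)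
  have hRpos : 0 < R := lt_of_lt_of_le (abs_pos.mpr (hr i0)) (hRi i0)
  obtain ⟨L, hL⟩ : ∃ L : ℝ, L = (1 / |r i0| + 1) + (1 / |r i1| + 1) := ⟨_, rfl⟩
  have hL0 : 0 ≤ 1 / |r i0| := by positivity
  have hL1 : 0 ≤ 1 / |r i1| := by positivity
  have hLpos : 0 < L := by rw [hL]; linarith
  have hη' : 0 < η ^ 2 / (R ^ 2 * C ^ 2 * L ^ 2) := by positivity
  obtain ⟨T1, hT1⟩ := hG hRH (η ^ 2 / (R ^ 2 * C ^ 2 * L ^ 2)) ε 1 hη' hε one_pos
  refine ⟨max 3 (T1 / R), ?_⟩
  intro T hT A hA hcard
  have hT3 : 3 ≤ T := (le_max_left _ _).trans hT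
  have hT0 : 0 < T := by linarith
  have hTT : T1 ≤ R * T := by
    have h := (le_max_right _ _).trans hT
    rw [div_le_iff₀ hRpos] at h
    linarith [mul_comm T R]
  have hlog : 0 < Real.log T := Real.log_pos (by linarith)
  have hd : ∀ i, dens (A i) (C * Real.log T) := fun i => hZ T (A i) hT3 (hA i)
  have hTlog : 0 < η * T * Real.log T := by positivity
  have hcp : ∀ i, 0 < ((A i).card : ℝ) := fun i => lt_of_lt_of_le hTlog (hcard i)
  have hsum : (((Fintype.piFinset A).filter (fun x : Fin m → ℝ =>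
      riemannZeta (1 / 2 + Complex.I * ((∑ i, r i * x i : ℝ) : ℂ)) = 0)).card : ℝ) =
      ∑ x ∈ Fintype.piFinset A,
        (if riemannZeta (1 / 2 + Complex.I * ((∑ i, r i * x i : ℝ) : ℂ)) = 0 then (1 : ℝ)
          else 0) := by
    rw [sum_boole]
  rw [hsum]
  have havg := avg A i0 i1 h01 (fun x =>
    (if riemannZeta (1 / 2 + Complex.I * ((∑ i, r i * x i : ℝ) : ℂ)) = 0 then (1 : ℝ) else 0))
  have hfib : ∀ x ∈ Fintype.piFinset A, ∑ p ∈ A i0 ×ˢ A i1,
      (fun x : Fin m → ℝ =>
        (if riemannZeta (1 / 2 + Complex.I * ((∑ i, r i * x i : ℝ) : ℂ)) = 0 then (1 : ℝ)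
          else 0)) (Function.update (Function.update x i0 p.1) i1 p.2) ≤
      (1 / 2 + ε) * (((A i0).card : ℝ) * ((A i1).card : ℝ)) := by
    intro x hx
    rw [Fintype.mem_piFinset] at hx
    obtain ⟨c, hc⟩ : ∃ c : ℝ, c = ∑ i ∈ (univ.erase i0).erase i1, r i * x i := ⟨_, rfl⟩
    have hlin : ∀ a b : ℝ,
        ∑ i, r i * (Function.update (Function.update x i0 a) i1 b) i =
          r i0 * a + r i1 * b + c := by
      intro a b
      rw [← add_sum_erase univ _ (mem_univ i0), ← add_sum_erase (univ.erase i0) _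
        (mem_erase.mpr ⟨h01.symm, mem_univ i1⟩)]
      have e0 : Function.update (Function.update x i0 a) i1 b i0 = a := by
        rw [Function.update_of_ne h01, Function.update_self]
      have e1 : Function.update (Function.update x i0 a) i1 b i1 = b :=
        Function.update_self _ _ _
      have e2 : ∑ i ∈ (univ.erase i0).erase i1,
          r i * Function.update (Function.update x i0 a) i1 b i = c := by
        rw [hc]
        refine sum_congr rfl (fun i hi => ?_)
        rw [mem_erase, mem_erase] at hi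
        rw [Function.update_of_ne hi.1, Function.update_of_ne hi.2.1]
      rw [e0, e1, e2]; ring
    have hxT : ∀ i, ∀ γ ∈ A i, |γ| ≤ T := fun i γ hγ => by
      have h := hA i γ hγ
      rw [abs_of_pos h.1]; exact h.2.1
    have hcT : |c| ≤ 1 * (R * T) := by
      rw [hc]
      calc |∑ i ∈ (univ.erase i0).erase i1, r i * x i|
          ≤ ∑ i ∈ (univ.erase i0).erase i1, |r i * x i| := abs_sum_le_sum_abs _ _
        _ ≤ ∑ i ∈ (univ.erase i0).erase i1, |r i| * T := sum_le_sum (fun i _ => by
            rw [abs_mul]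
            exact mul_le_mul_of_nonneg_left (hxT i (x i) (hx i)) (abs_nonneg _))
        _ ≤ ∑ i, |r i| * T := sum_le_sum_of_subset_of_nonneg (subset_univ _)
            (fun i _ _ => by positivity)
        _ = 1 * (R * T) := by rw [← sum_mul, one_mul, hR]
    have inj0 : Function.Injective (fun a : ℝ => r i0 * a) := mul_right_injective₀ (hr i0)
    have inj1 : Function.Injective (fun a : ℝ => r i1 * a) := mul_right_injective₀ (hr i1)
    have c0 : ((A i0).image (fun a => r i0 * a)).card = (A i0).card :=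
      card_image_of_injective _ inj0
    have c1 : ((A i1).image (fun a => r i1 * a)).card = (A i1).card :=
      card_image_of_injective _ inj1
    have hbd : ∀ i, ∀ a ∈ (A i).image (fun a => r i * a), |a| ≤ R * T := by
      intro i a ha
      rw [mem_image] at ha
      obtain ⟨b, hb, rfl⟩ := ha
      rw [abs_mul]
      exact mul_le_mul (hRi i) (hxT i b hb) (abs_nonneg _) hRpos.le
    have hCl : 0 < C * Real.log T := by positivity
    have hd0 : dens ((A i0).image (fun a => r i0 * a)) (C * Real.log T * L) :=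
      dens_mono (dens_image (hd i0) (hr i0)) (by
        apply mul_le_mul_of_nonneg_left _ hCl.le
        rw [hL]; linarith)
    have hd1 : dens ((A i1).image (fun a => r i1 * a)) (C * Real.log T * L) :=
      dens_mono (dens_image (hd i1) (hr i1)) (by
        apply mul_le_mul_of_nonneg_left _ hCl.le
        rw [hL]; linarith)
    have hbig : η ^ 2 / (R ^ 2 * C ^ 2 * L ^ 2) * (R * T) ^ 2 * (C * Real.log T * L) ^ 2 ≤
        (((A i0).image (fun a => r i0 * a)).card : ℝ) *
          (((A i1).image (fun a => r i1 * a)).card : ℝ) := by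
      rw [c0, c1]
      have e : η ^ 2 / (R ^ 2 * C ^ 2 * L ^ 2) * (R * T) ^ 2 * (C * Real.log T * L) ^ 2 =
          (η * T * Real.log T) * (η * T * Real.log T) := by
        field_simp
      rw [e]
      exact mul_le_mul (hcard i0) (hcard i1) hTlog.le (hcp i0).le
    have h := hT1 (R * T) hTT ((A i0).image (fun a => r i0 * a))
      ((A i1).image (fun a => r i1 * a)) (C * Real.log T * L) c (hbd i0) (hbd i1) hd0 hd1 hbig
      hcT
    rw [c0, c1] at h
    refine le_trans ?_ h
    have e3 : ∑ p ∈ A i0 ×ˢ A i1,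
      (fun x : Fin m → ℝ =>
        (if riemannZeta (1 / 2 + Complex.I * ((∑ i, r i * x i : ℝ) : ℂ)) = 0 then (1 : ℝ)
          else 0)) (Function.update (Function.update x i0 p.1) i1 p.2) =
        (((A i0 ×ˢ A i1).filter (fun p : ℝ × ℝ =>
          riemannZeta (1 / 2 + Complex.I * ((r i0 * p.1 + r i1 * p.2 + c : ℝ) : ℂ)) = 0)).card :
            ℝ) := by
      rw [← sum_boole]
      refine sum_congr rfl (fun p _ => ?_)
      simp only [hlin]
    rw [e3]
    norm_cast
    refine card_le_card_of_injOn (fun p : ℝ × ℝ => (r i0 * p.1, r i1 * p.2)) ?_ ?_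
    · intro p hp
      rw [mem_coe, mem_filter, mem_product] at hp
      rw [mem_coe, mem_filter, mem_product]
      exact ⟨⟨mem_image_of_mem _ hp.1.1, mem_image_of_mem _ hp.1.2⟩, hp.2⟩
    · intro p _ q _ hpq
      rw [Prod.mk.injEq] at hpq
      exact Prod.ext (inj0 hpq.1) (inj1 hpq.2)
  have hle := sum_le_sum hfib
  rw [havg, sum_const, Fintype.card_piFinset, nsmul_eq_mul] at hle
  have hpos : 0 < (((A i0).card : ℝ) * ((A i1).card : ℝ)) := mul_pos (hcp i0) (hcp i1)
  refine le_of_mul_le_mul_left ?_ hpos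
  refine hle.trans (le_of_eq ?_)
  push_cast
  ring

end Pool.Agent.H452R4.LI
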