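import Mathlib

/-! Project LI (helper452): under RH at most half of the sums `a + b + c`, `a ∈ A`, `b ∈ B`
(`A`, `B` dense sets of reals) are ordinates of zeros of zeta; consequences for linear relations
between ordinates.  Definitions and statements of the tasks. -/

set_option autoImplicit false

open Finset ArithmeticFunction MeasureTheory intervalIntegral

namespace Pool.Agent.H452R4.LI

/-- the Riemann hypothesis in the critical strip (definitionally `SP.RHs`) -/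
def RH0 : Prop := ∀ s : ℂ, 0 < s.re → s.re < 1 → riemannZeta s = 0 → s.re = 1 / 2

/-- `|∑_{a ∈ A} e^{-i a log n}|` -/
noncomputable def EE (A : Finset ℝ) (n : ℕ) : ℝ :=
  ‖∑ a ∈ A, Complex.exp (-(Complex.I * ((a * Real.log n : ℝ) : ℂ)))‖

/-- at most `w` elements in every half-open unit interval -/
def dens (A : Finset ℝ) (w : ℝ) : Prop :=
  ∀ x : ℝ, ((A.filter (fun a => x ≤ a ∧ a < x + 1)).card : ℝ) ≤ w

/-- SCH: row sums of the Gaussian matrix. -/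
def S_SCH : Prop := ∃ C : ℝ, 0 < C ∧ ∀ (A : Finset ℝ) (w : ℝ), dens A w → ∀ a ∈ A,
  ∑ b ∈ A, Real.exp (-(a - b) ^ 2 / 2) ≤ C * w

/-- GAU: mean square of an exponential sum over a unit interval, general coefficients. -/
def S_GAU : Prop := ∃ C : ℝ, 0 < C ∧ ∀ (A : Finset ℝ) (c : ℝ → ℂ) (W x0 : ℝ),
  (∀ a ∈ A, ∑ b ∈ A, Real.exp (-(a - b) ^ 2 / 2) ≤ W) →
  ∫ x in x0..(x0 + 1), ‖∑ a ∈ A, c a * Complex.exp (-(Complex.I * ((a * x : ℝ) : ℂ)))‖ ^ 2 ≤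
    C * W * ∑ a ∈ A, ‖c a‖ ^ 2

/-- MV: the mean value theorem over integers in a dyadic block. -/
def S_MV : Prop := ∃ C : ℝ, 0 < C ∧ ∀ (A : Finset ℝ) (T w : ℝ) (D : ℕ), 1 ≤ T → 1 ≤ D →
  (∀ a ∈ A, |a| ≤ T) → dens A w →
  ∑ n ∈ Ioc D (2 * D), EE A n ^ 2 ≤ C * (D + T) * A.card * w

/-- BIL: the bilinear prime sum. -/
def S_BIL : Prop := ∃ C : ℝ, 0 < C ∧ ∀ (A B : Finset ℝ) (T w : ℝ) (N : ℕ), 1 ≤ T → 1 ≤ N →
  (∀ a ∈ A, |a| ≤ T) → (∀ b ∈ B, |b| ≤ T) → dens A w → dens B w →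
  ∑ n ∈ Ico 1 N, vonMangoldt n * (n : ℝ) ^ (-(1 / 2 : ℝ)) * (EE A n * EE B n) ≤
    C * w * Real.sqrt (A.card * B.card) * (T + Real.sqrt N * (1 + Real.log N))

/-- PLAIN: the trivial prime sum. -/
def S_PLAIN : Prop := ∀ N : ℕ, 1 ≤ N →
  ∑ n ∈ Ico 1 N, vonMangoldt n * (n : ℝ) ^ (-(1 / 2 : ℝ)) ≤ 2 * Real.sqrt N * Real.log N

/-- EXC: few pairs with a small sum; and the cardinality of a set in `[-T, T]`. -/
def S_EXC : Prop :=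
  (∀ (A B : Finset ℝ) (w t0 c : ℝ), 0 ≤ t0 → dens B w →
    (((A ×ˢ B).filter (fun x : ℝ × ℝ => |x.1 + x.2 + c| < t0)).card : ℝ) ≤
      A.card * (w * (2 * t0 + 2))) ∧
  (∀ (A : Finset ℝ) (w T : ℝ), 0 ≤ T → (∀ a ∈ A, |a| ≤ T) → dens A w →
    (A.card : ℝ) ≤ w * (2 * T + 2))

/-- SPL: the sum of cosines over a product set, with exceptional pairs removed. -/
def S_SPL : Prop := ∀ (A B : Finset ℝ) (c : ℝ) (n : ℕ) (P : ℝ × ℝ → Prop) [DecidablePred P],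
  |∑ x ∈ (A ×ˢ B).filter P, Real.cos ((x.1 + x.2 + c) * Real.log n)| ≤
    EE A n * EE B n + ((A ×ˢ B).filter (fun x => ¬ P x)).card

/-- GEN: the general theorem. -/
def S_GEN : Prop := RH0 → ∀ η ε K : ℝ, 0 < η → 0 < ε → 0 < K → ∃ T1 : ℝ, ∀ T : ℝ, T1 ≤ T →
  ∀ (A B : Finset ℝ) (w c : ℝ), (∀ a ∈ A, |a| ≤ T) → (∀ b ∈ B, |b| ≤ T) → dens A w → dens B w →
    η * T ^ 2 * w ^ 2 ≤ A.card * B.card → |c| ≤ K * T →
    (((A ×ˢ B).filter (fun x : ℝ × ℝ =>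
      riemannZeta (1 / 2 + Complex.I * ((x.1 + x.2 + c : ℝ) : ℂ)) = 0)).card : ℝ) ≤
      (1 / 2 + ε) * (A.card * B.card)

/-- ZC: ordinates in unit intervals. -/
def S_ZC : Prop := ∃ C : ℝ, 0 < C ∧ ∀ (T : ℝ) (A : Finset ℝ), 3 ≤ T →
  (∀ γ ∈ A, 0 < γ ∧ γ ≤ T ∧ riemannZeta (1 / 2 + Complex.I * (γ : ℂ)) = 0) →
  dens A (C * Real.log T)

/-- COR: the theorem on linear relations. -/
def S_COR : Prop := RH0 → ∀ (m : ℕ) (r : Fin m → ℝ) (η ε : ℝ), 2 ≤ m → (∀ i, r i ≠ 0) →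
  0 < η → 0 < ε → ∃ T1 : ℝ, ∀ T : ℝ, T1 ≤ T → ∀ A : Fin m → Finset ℝ,
    (∀ i, ∀ γ ∈ A i, 0 < γ ∧ γ ≤ T ∧ riemannZeta (1 / 2 + Complex.I * (γ : ℂ)) = 0) →
    (∀ i, η * T * Real.log T ≤ (A i).card) →
    (((Fintype.piFinset A).filter (fun x : Fin m → ℝ =>
      riemannZeta (1 / 2 + Complex.I * ((∑ i, r i * x i : ℝ) : ℂ)) = 0)).card : ℝ) ≤
      (1 / 2 + ε) * ∏ i, ((A i).card : ℝ)

end Pool.Agent.H452R4.LI
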