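import Pool.Agent.H345R2.AP.Main
import Pool.Agent.H452R4.LI.Defs

/-! Project LI (helper452): statement of the task GI. -/

set_option autoImplicit false

open Finset ArithmeticFunction MeasureTheory intervalIntegral

namespace Pool.Agent.H452R4.LI

open Pool.Agent.H345R2.AP (mz SS)

/-- GI: the basic inequality for an arbitrary finite family `f i`, `i ∈ S`, of real numbers
(adaptation of `Pool.Agent.H345R2.AP.main_ineq`; for `t = f i` use `LG.EFX` at height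
`T_i = 2|t|/3` and the point `|t|`; the real part of `n^{-1/2-i|t|}` is `n^{-1/2} cos(t log n)`). -/
def S_GI : Prop := SP.RHs → ∃ C T0 : ℝ, 0 < C ∧ 10 ≤ T0 ∧
  ∀ (ι : Type) (S : Finset ι) (f : ι → ℝ) (M U p : ℝ) (N : ℕ), 0 < U → 1 ≤ p → 1 ≤ N →
    (∀ i ∈ S, T0 ≤ |f i| ∧ |f i| ≤ M ∧ U ≤ Real.log (|f i| / 2) ^ 2 / 16) →
    U / 2 * ∑ i ∈ S, (mz |f i| : ℝ) ≤
      S.card * Real.log M / 2 +
      ∑ n ∈ Ico 1 N, vonMangoldt n * (n : ℝ) ^ (-(1 / 2 : ℝ)) *
        |∑ i ∈ S, Real.cos (f i * Real.log n)| +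
      S.card * Real.exp (p ^ 2 / 2 + p * U + (1 - p) * Real.log N) * SS * U + S.card * C

end Pool.Agent.H452R4.LI
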