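import Pool.Agent.H452R4.LI.Defs2

/-! Project LI (helper452): the general theorem from the tasks. -/

set_option autoImplicit false

open Finset ArithmeticFunction Filter

namespace Pool.Agent.H452R4.LI

open Pool.Agent.H345R2.AP (mz SS SS_nonneg)

lemma mz_one_le (t : ℝ) (ht : t ≠ 0) (h : riemannZeta (1 / 2 + Complex.I * (t : ℂ)) = 0) :
    (1 : ℝ) ≤ mz |t| := by
  have h2 : riemannZeta (1 / 2 + Complex.I * ((|t| : ℝ) : ℂ)) = 0 := by
    rcases le_or_gt 0 t with h0 | h0
    · rwa [abs_of_nonneg h0]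
    · rw [abs_of_neg h0]
      have h3 := riemannZeta_conj (1 / 2 + Complex.I * (t : ℂ))
      rw [h, _root_.map_zero] at h3
      have h4 : (starRingEnd ℂ) (1 / 2 + Complex.I * (t : ℂ)) =
          1 / 2 + Complex.I * ((-t : ℝ) : ℂ) := by
        rw [map_add, map_mul, Complex.conj_I, Complex.conj_ofReal]
        have : (starRingEnd ℂ) (1 / 2 : ℂ) = 1 / 2 := by
          rw [show (1 / 2 : ℂ) = ((1 / 2 : ℝ) : ℂ) by push_cast; rfl, Complex.conj_ofReal]
        rw [this]
        push_cast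
        ring
      rw [h4] at h3
      exact h3
  have h5 : (1 : ℕ) ≤ mz |t| := by
    apply H370.Loc.mult_pos' H370.good_zeta _ h2
    simp only [Complex.add_im, Complex.mul_im, Complex.I_re, Complex.I_im, Complex.ofReal_im,
      Complex.ofReal_re]
    norm_num
    exact ht
  exact_mod_cast h5

/-- the growth facts -/
lemma ev_growth (δ lam T0 ρ C4 : ℝ) (hδ : 0 < δ) (_hlam : 0 < lam) (hT0 : 0 ≤ T0) (hρ : 0 < ρ) :
    ∀ᶠ L : ℝ in atTop, 1 ≤ L ∧ C4 ≤ ρ * L ∧
      2 * (1 + 4 * L) * Real.exp (-(δ / 2 * L)) *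
        (2 * (T0 + 2 * Real.exp (4 * Real.sqrt (lam * L))) + 2) ≤ ρ := by
  have h1 : Tendsto (fun L : ℝ => (10 * (2 * T0 + 6)) * (L ^ (1 : ℝ) *
      Real.exp (-(3 * δ / 8) * L))) atTop (nhds ((10 * (2 * T0 + 6)) * 0)) :=
    (tendsto_rpow_mul_exp_neg_mul_atTop_nhds_zero 1 (3 * δ / 8) (by positivity)).const_mul _
  rw [mul_zero] at h1
  have h2 := h1.eventually_le_const hρ
  filter_upwards [h2, eventually_ge_atTop (1 : ℝ), eventually_ge_atTop (C4 / ρ),
    eventually_ge_atTop (1024 * lam / δ ^ 2)] with L hL hL1 hL2 hL3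
  rw [Real.rpow_one] at hL
  refine ⟨hL1, ?_, ?_⟩
  · rw [div_le_iff₀ hρ] at hL2; linarith
  · have hL0 : 0 < L := by linarith
    have h3 : 4 * Real.sqrt (lam * L) ≤ δ / 8 * L := by
      have h4 : Real.sqrt (lam * L) ≤ δ / 32 * L := by
        rw [Real.sqrt_le_left (by positivity)]
        rw [div_le_iff₀ (by positivity)] at hL3
        nlinarith
      linarith
    have h5 : Real.exp (4 * Real.sqrt (lam * L)) ≤ Real.exp (δ / 8 * L) := Real.exp_le_exp.mpr h3
    have h6 : 1 ≤ Real.exp (δ / 8 * L) := Real.one_le_exp (by positivity)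
    have h7 : 2 * (T0 + 2 * Real.exp (4 * Real.sqrt (lam * L))) + 2 ≤
        (2 * T0 + 6) * Real.exp (δ / 8 * L) := by nlinarith
    have h8 : 2 * (1 + 4 * L) ≤ 10 * L := by linarith
    calc 2 * (1 + 4 * L) * Real.exp (-(δ / 2 * L)) *
        (2 * (T0 + 2 * Real.exp (4 * Real.sqrt (lam * L))) + 2) ≤
        10 * L * Real.exp (-(δ / 2 * L)) * ((2 * T0 + 6) * Real.exp (δ / 8 * L)) := by
          apply mul_le_mul _ h7 (by positivity) (by positivity)
          exact mul_le_mul_of_nonneg_right h8 (Real.exp_pos _).le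
      _ = (10 * (2 * T0 + 6)) * (L * (Real.exp (-(δ / 2 * L)) * Real.exp (δ / 8 * L))) := by ring
      _ = (10 * (2 * T0 + 6)) * (L * Real.exp (-(3 * δ / 8) * L)) := by
          rw [← Real.exp_add]
          congr 3
          ring_nf
      _ ≤ ρ := hL


theorem gen (hGI : S_GI) (hBIL : S_BIL) (hPL : S_PLAIN) (hEX : S_EXC) (hSP : S_SPL) : S_GEN := by
  classical
  intro hRH η ε K hη hε hK
  obtain ⟨C, T0, hC, hT0, hmain⟩ := hGI hRH
  obtain ⟨Cb, hCb, hbil⟩ := hBIL
  obtain ⟨hex1, hex2⟩ := hEX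
  set lam : ℝ := 1 / (1 / 2 + ε / 2) with hlam
  have hlam0 : 0 < lam := by positivity
  have hinv : 1 / lam = 1 / 2 + ε / 2 := by rw [hlam, one_div_one_div]
  have hlam2 : lam < 2 := by
    have h1 : lam < 1 / (1 / 2) := by
      rw [hlam]
      apply one_div_lt_one_div_of_lt (by positivity)
      linarith
    rwa [one_div_one_div] at h1
  set δ : ℝ := (2 - lam) / 2 with hδ
  have hδ0 : 0 < δ := by rw [hδ]; linarith
  have hδ1 : lam + 2 * δ = 2 := by rw [hδ]; ring
  have hδ2 : δ ≤ 1 := by linarith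
  set p : ℝ := 1 + 3 / δ with hp
  have hp1 : 1 ≤ p := by
    rw [hp]; have : 0 < 3 / δ := by positivity
    linarith
  have hSS := SS_nonneg
  have hsη : 0 < Real.sqrt η := Real.sqrt_pos.mpr hη
  set C3 : ℝ := 2 * Cb / Real.sqrt η + 8 / η + 2 * Real.exp (p ^ 2 / 2) * SS + C with hC3
  set C4 : ℝ := Real.log (K + 2) + 2 * C3 with hC4
  set ρ : ℝ := min 1 (min (η * ε / 16) (lam * ε / 4)) with hρ
  have hρ0 : 0 < ρ := by
    rw [hρ]; exact lt_min one_pos (lt_min (by positivity) (by positivity))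
  have hρ1 : ρ ≤ 1 := min_le_left _ _
  have hρ2 : ρ ≤ η * ε / 16 := (min_le_right _ _).trans (min_le_left _ _)
  have hρ3 : ρ ≤ lam * ε / 4 := (min_le_right _ _).trans (min_le_right _ _)
  have hev := (Real.tendsto_log_atTop.eventually
    (ev_growth δ lam T0 ρ C4 hδ0 hlam0 (by linarith) hρ0)).and (eventually_ge_atTop (1 : ℝ))
  obtain ⟨T1, hT1⟩ := eventually_atTop.mp hev
  refine ⟨T1, fun T hT A B w c hA hB hdA hdB hX hc => ?_⟩
  obtain ⟨⟨hL1, hLC, hgr⟩, hTone⟩ := hT1 T hT
  set L : ℝ := Real.log T with hL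
  have hL0 : 0 < L := by linarith
  have hTpos : 0 < T := by linarith
  have hTexp : Real.exp L = T := Real.exp_log hTpos
  set tm : ℝ := T0 + 2 * Real.exp (4 * Real.sqrt (lam * L)) with htm
  have htm0 : 0 ≤ tm := by positivity
  have hw0 : 0 ≤ w := le_trans (by positivity) (hdA 0)
  set X : ℝ := (A.card : ℝ) * B.card with hXd
  have hX0 : 0 ≤ X := by positivity
  -- the block length
  set I : ℕ := ⌈(lam + δ) * L / Real.log 2⌉₊ with hI
  have hlog2 : 0 < Real.log 2 := Real.log_pos (by norm_num)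
  have hI1 : (lam + δ) * L ≤ I * Real.log 2 := by
    have := Nat.le_ceil ((lam + δ) * L / Real.log 2)
    rw [div_le_iff₀ hlog2] at this
    exact this
  have hI2 : (I : ℝ) * Real.log 2 ≤ (lam + δ) * L + Real.log 2 := by
    have h1 := Nat.ceil_lt_add_one (show 0 ≤ (lam + δ) * L / Real.log 2 by positivity)
    rw [← hI] at h1
    have h2 : (I : ℝ) * Real.log 2 ≤ ((lam + δ) * L / Real.log 2 + 1) * Real.log 2 :=
      mul_le_mul_of_nonneg_right h1.le hlog2.le
    have h3 : ((lam + δ) * L / Real.log 2 + 1) * Real.log 2 = (lam + δ) * L + Real.log 2 := by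
      field_simp
    linarith
  have hN1 : 1 ≤ 2 ^ I := Nat.one_le_two_pow
  have hlogN : Real.log ((2 ^ I : ℕ) : ℝ) = I * Real.log 2 := by
    push_cast; rw [Real.log_pow]
  have hlogN4 : Real.log ((2 ^ I : ℕ) : ℝ) ≤ 4 * L := by
    rw [hlogN]
    have h3 : lam + δ ≤ 2 := by linarith
    have h4 : Real.log 2 ≤ 1 := by
      have := Real.log_two_lt_d9; linarith
    nlinarith
  have hlogN0 : 0 ≤ Real.log ((2 ^ I : ℕ) : ℝ) := by rw [hlogN]; positivity
  have hsqrt : Real.sqrt ((2 ^ I : ℕ) : ℝ) ≤ 2 * (T * Real.exp (-(δ / 2 * L))) := by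
    have h1 : Real.sqrt ((2 ^ I : ℕ) : ℝ) = Real.exp (I * Real.log 2 / 2) := by
      rw [Real.sqrt_eq_rpow, Real.rpow_def_of_pos (by positivity), hlogN]
      congr 1; ring
    have h3 : (2 : ℝ) = Real.exp (Real.log 2) := (Real.exp_log (by norm_num)).symm
    rw [h1]
    calc Real.exp (I * Real.log 2 / 2) ≤ Real.exp (Real.log 2 + (L + -(δ / 2 * L))) := by
          apply Real.exp_le_exp.mpr
          have : (lam + δ) * L / 2 = L + -(δ / 2 * L) := by
            rw [show lam = 2 - 2 * δ by linarith]; ring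
          linarith
      _ = _ := by rw [Real.exp_add, Real.exp_add, ← h3, hTexp]
  have hsN : Real.sqrt ((2 ^ I : ℕ) : ℝ) * (1 + Real.log ((2 ^ I : ℕ) : ℝ)) * (2 * tm + 2) ≤ T := by
    calc Real.sqrt ((2 ^ I : ℕ) : ℝ) * (1 + Real.log ((2 ^ I : ℕ) : ℝ)) * (2 * tm + 2)
        ≤ (2 * (T * Real.exp (-(δ / 2 * L)))) * (1 + 4 * L) * (2 * tm + 2) := by
          apply mul_le_mul_of_nonneg_right _ (by positivity)
          apply mul_le_mul hsqrt (by linarith) (by positivity) (by positivity)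
      _ = T * (2 * (1 + 4 * L) * Real.exp (-(δ / 2 * L)) * (2 * tm + 2)) := by ring
      _ ≤ T * ρ := mul_le_mul_of_nonneg_left hgr hTpos.le
      _ ≤ T := by nlinarith
  have hsN1 : Real.sqrt ((2 ^ I : ℕ) : ℝ) * (1 + Real.log ((2 ^ I : ℕ) : ℝ)) ≤ T := by
    refine le_trans ?_ hsN
    have h1 : 0 ≤ Real.sqrt ((2 ^ I : ℕ) : ℝ) * (1 + Real.log ((2 ^ I : ℕ) : ℝ)) := by positivity
    nlinarith
  -- sizes
  have hAw : (A.card : ℝ) * w * T * (η / 4) ≤ X := by
    rcases hw0.eq_or_lt with h0 | h0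
    · rw [← h0]; simpa using hX0
    · have h1 := hex2 A w T hTpos.le hA hdA
      have h2 : (A.card : ℝ) ≤ 4 * (w * T) := by nlinarith
      have h3 : η * T ^ 2 * w ^ 2 ≤ 4 * (w * T) * B.card :=
        hX.trans (mul_le_mul_of_nonneg_right h2 (by positivity))
      have hwT : 0 < w * T := by positivity
      have h4 : η / 4 * (w * T) ≤ B.card := by
        by_contra hcon
        push Not at hcon
        have : 4 * (w * T) * B.card < 4 * (w * T) * (η / 4 * (w * T)) :=
          mul_lt_mul_of_pos_left hcon (by positivity)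
        nlinarith
      calc (A.card : ℝ) * w * T * (η / 4) = A.card * (η / 4 * (w * T)) := by ring
        _ ≤ A.card * B.card := mul_le_mul_of_nonneg_left h4 (by positivity)
  have hsX : Real.sqrt η * (w * T) ≤ Real.sqrt X := by
    have h1 : Real.sqrt (η * T ^ 2 * w ^ 2) ≤ Real.sqrt X := Real.sqrt_le_sqrt hX
    have h2 : Real.sqrt (η * T ^ 2 * w ^ 2) = Real.sqrt η * (w * T) := by
      rw [show η * T ^ 2 * w ^ 2 = η * (w * T) ^ 2 by ring, Real.sqrt_mul hη.le,
        Real.sqrt_sq (by positivity)]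
    rwa [h2] at h1
  have hwX : w * T * Real.sqrt X ≤ X / Real.sqrt η := by
    rw [le_div_iff₀ hsη]
    have h1 := Real.mul_self_sqrt hX0
    have h2 := mul_le_mul_of_nonneg_right hsX (Real.sqrt_nonneg X)
    nlinarith
  -- the sets
  set P : ℝ × ℝ → Prop := fun x => tm ≤ |x.1 + x.2 + c| with hP
  set S : Finset (ℝ × ℝ) := (A ×ˢ B).filter P with hS
  set E : Finset (ℝ × ℝ) := (A ×ˢ B).filter (fun x => ¬ P x) with hE
  have hScard : (S.card : ℝ) ≤ X := by
    have h1 : S.card ≤ (A ×ˢ B).card := card_filter_le _ _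
    rw [card_product] at h1
    rw [hXd]; exact_mod_cast h1
  have hEcard : (E.card : ℝ) ≤ A.card * (w * (2 * tm + 2)) := by
    have h1 := hex1 A B w tm c htm0 hdB
    have h2 : E = (A ×ˢ B).filter (fun x : ℝ × ℝ => |x.1 + x.2 + c| < tm) := by
      rw [hE]
      apply Finset.filter_congr
      intro x _
      simp only [hP, not_le]
    rw [h2]; exact h1
  have hET : (E.card : ℝ) * T ≤ 4 * X / η * (2 * tm + 2) := by
    calc (E.card : ℝ) * T ≤ A.card * (w * (2 * tm + 2)) * T :=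
          mul_le_mul_of_nonneg_right hEcard hTpos.le
      _ = (A.card * w * T * (η / 4)) * (4 / η * (2 * tm + 2)) := by field_simp
      _ ≤ X * (4 / η * (2 * tm + 2)) := mul_le_mul_of_nonneg_right hAw (by positivity)
      _ = _ := by ring
  have hEsmall : (E.card : ℝ) ≤ ε / 4 * X := by
    have h1 : 2 * tm + 2 ≤ ρ * T := by
      have h2 : Real.exp (δ / 2 * L) ≤ T := by
        rw [← hTexp]
        apply Real.exp_le_exp.mpr
        nlinarith
      have h3 : Real.exp (-(δ / 2 * L)) * (2 * tm + 2) ≤ ρ := by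
        refine le_trans ?_ hgr
        have h4 : 0 ≤ Real.exp (-(δ / 2 * L)) * (2 * tm + 2) := by positivity
        nlinarith
      calc 2 * tm + 2 = Real.exp (δ / 2 * L) * (Real.exp (-(δ / 2 * L)) * (2 * tm + 2)) := by
            rw [← mul_assoc, ← Real.exp_add, add_neg_cancel, Real.exp_zero, one_mul]
        _ ≤ Real.exp (δ / 2 * L) * ρ := mul_le_mul_of_nonneg_left h3 (Real.exp_pos _).le
        _ ≤ T * ρ := mul_le_mul_of_nonneg_right h2 hρ0.le
        _ = ρ * T := mul_comm _ _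
    have h5 : (E.card : ℝ) * T ≤ (ε / 4 * X) * T := by
      calc (E.card : ℝ) * T ≤ 4 * X / η * (2 * tm + 2) := hET
        _ ≤ 4 * X / η * (ρ * T) := mul_le_mul_of_nonneg_left h1 (by positivity)
        _ ≤ 4 * X / η * ((η * ε / 16) * T) := by
            apply mul_le_mul_of_nonneg_left _ (by positivity)
            exact mul_le_mul_of_nonneg_right hρ2 hTpos.le
        _ = _ := by field_simp; ring
    exact le_of_mul_le_mul_right h5 hTpos
  -- prime side
  have hprime : ∑ n ∈ Ico 1 (2 ^ I), vonMangoldt n * (n : ℝ) ^ (-(1 / 2 : ℝ)) *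
      |∑ x ∈ S, Real.cos ((x.1 + x.2 + c) * Real.log n)| ≤ (2 * Cb / Real.sqrt η + 8 / η) * X := by
    have h1 : ∀ n ∈ Ico 1 (2 ^ I), vonMangoldt n * (n : ℝ) ^ (-(1 / 2 : ℝ)) *
        |∑ x ∈ S, Real.cos ((x.1 + x.2 + c) * Real.log n)| ≤
        vonMangoldt n * (n : ℝ) ^ (-(1 / 2 : ℝ)) * (EE A n * EE B n) +
        vonMangoldt n * (n : ℝ) ^ (-(1 / 2 : ℝ)) * E.card := by
      intro n _
      rw [← mul_add]
      exact mul_le_mul_of_nonneg_left (hSP A B c n P)
        (mul_nonneg vonMangoldt_nonneg (by positivity))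
    refine (Finset.sum_le_sum h1).trans ?_
    rw [Finset.sum_add_distrib, ← Finset.sum_mul]
    have h2 := hbil A B T w (2 ^ I) hTone hN1 hA hB hdA hdB
    have h3 := hPL (2 ^ I) hN1
    have h4 : Cb * w * Real.sqrt X * (T + Real.sqrt ((2 ^ I : ℕ) : ℝ) *
        (1 + Real.log ((2 ^ I : ℕ) : ℝ))) ≤ 2 * Cb / Real.sqrt η * X := by
      calc Cb * w * Real.sqrt X * (T + Real.sqrt ((2 ^ I : ℕ) : ℝ) *
        (1 + Real.log ((2 ^ I : ℕ) : ℝ))) ≤ Cb * w * Real.sqrt X * (T + T) := by
            apply mul_le_mul_of_nonneg_left _ (by positivity)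
            linarith
        _ = 2 * Cb * (w * T * Real.sqrt X) := by ring
        _ ≤ 2 * Cb * (X / Real.sqrt η) := mul_le_mul_of_nonneg_left hwX (by positivity)
        _ = _ := by ring
    have h5 : (∑ n ∈ Ico 1 (2 ^ I), vonMangoldt n * (n : ℝ) ^ (-(1 / 2 : ℝ))) * E.card ≤
        8 / η * X := by
      have h6 : (∑ n ∈ Ico 1 (2 ^ I), vonMangoldt n * (n : ℝ) ^ (-(1 / 2 : ℝ))) * E.card ≤
          (2 * (Real.sqrt ((2 ^ I : ℕ) : ℝ) * (1 + Real.log ((2 ^ I : ℕ) : ℝ)))) * E.card := by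
        apply mul_le_mul_of_nonneg_right _ (by positivity)
        refine h3.trans ?_
        have := Real.sqrt_nonneg ((2 ^ I : ℕ) : ℝ)
        nlinarith
      have h7 : ((2 * (Real.sqrt ((2 ^ I : ℕ) : ℝ) * (1 + Real.log ((2 ^ I : ℕ) : ℝ)))) * E.card)
          * T ≤ (8 / η * X) * T := by
        calc ((2 * (Real.sqrt ((2 ^ I : ℕ) : ℝ) * (1 + Real.log ((2 ^ I : ℕ) : ℝ)))) * E.card) * T
            = (2 * (Real.sqrt ((2 ^ I : ℕ) : ℝ) * (1 + Real.log ((2 ^ I : ℕ) : ℝ)))) *
              (E.card * T) := by ring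
          _ ≤ (2 * (Real.sqrt ((2 ^ I : ℕ) : ℝ) * (1 + Real.log ((2 ^ I : ℕ) : ℝ)))) *
              (4 * X / η * (2 * tm + 2)) := mul_le_mul_of_nonneg_left hET (by positivity)
          _ = 8 / η * X * (Real.sqrt ((2 ^ I : ℕ) : ℝ) * (1 + Real.log ((2 ^ I : ℕ) : ℝ)) *
              (2 * tm + 2)) := by ring
          _ ≤ 8 / η * X * T := mul_le_mul_of_nonneg_left hsN (by positivity)
      exact h6.trans (le_of_mul_le_mul_right h7 hTpos)
    rw [add_mul]
    exact add_le_add (h2.trans h4) h5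
  -- the main inequality
  have hm := hmain (ℝ × ℝ) S (fun x => x.1 + x.2 + c) ((K + 2) * T) (lam * L) p (2 ^ I)
    (by positivity) hp1 hN1 (by
      intro x hx
      rw [hS, mem_filter, mem_product] at hx
      obtain ⟨⟨hxA, hxB⟩, hxP⟩ := hx
      have hx1 := hA _ hxA
      have hx2 := hB _ hxB
      have hxP' : tm ≤ |x.1 + x.2 + c| := hxP
      have he0 : 0 < Real.exp (4 * Real.sqrt (lam * L)) := Real.exp_pos _
      refine ⟨by linarith, ?_, ?_⟩
      · have h1 : |x.1 + x.2 + c| ≤ |x.1| + |x.2| + |c| := abs_add_three _ _ _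
        nlinarith
      · have h1 : 4 * Real.sqrt (lam * L) ≤ Real.log (|x.1 + x.2 + c| / 2) := by
          rw [Real.le_log_iff_exp_le (by linarith)]
          linarith
        have h2 : 0 ≤ lam * L := by positivity
        have h3 := Real.mul_self_sqrt h2
        have h4 := Real.sqrt_nonneg (lam * L)
        have h5 : (4 * Real.sqrt (lam * L)) ^ 2 ≤ Real.log (|x.1 + x.2 + c| / 2) ^ 2 :=
          pow_le_pow_left₀ (by positivity) h1 2
        show lam * L ≤ Real.log (|x.1 + x.2 + c| / 2) ^ 2 / 16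
        nlinarith)
  rw [hlogN] at hm
  have hBb : Real.exp (p ^ 2 / 2 + p * (lam * L) + (1 - p) * (I * Real.log 2)) * (lam * L) ≤
      2 * Real.exp (p ^ 2 / 2) := by
    have h1 : p ^ 2 / 2 + p * (lam * L) + (1 - p) * (I * Real.log 2) ≤ p ^ 2 / 2 + -L := by
      have h2 : (1 - p) * (I * Real.log 2) ≤ (1 - p) * ((lam + δ) * L) :=
        mul_le_mul_of_nonpos_left hI1 (by linarith)
      have h3 : p * (lam * L) + (1 - p) * ((lam + δ) * L) = lam * L - 3 * L := by
        rw [hp]; field_simp; ring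
      nlinarith
    calc Real.exp (p ^ 2 / 2 + p * (lam * L) + (1 - p) * (I * Real.log 2)) * (lam * L)
        ≤ Real.exp (p ^ 2 / 2 + -L) * (lam * L) :=
          mul_le_mul_of_nonneg_right (Real.exp_le_exp.mpr h1) (by positivity)
      _ = Real.exp (p ^ 2 / 2) * (Real.exp (-L) * L * lam) := by rw [Real.exp_add]; ring
      _ ≤ Real.exp (p ^ 2 / 2) * (1 * 2) := by
          apply mul_le_mul_of_nonneg_left _ (Real.exp_pos _).le
          apply mul_le_mul _ hlam2.le hlam0.le (by norm_num)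
          rw [Real.exp_neg, inv_mul_le_iff₀ (Real.exp_pos _), mul_one]
          linarith [Real.add_one_le_exp L]
      _ = _ := by ring
  have hlogM : Real.log ((K + 2) * T) = Real.log (K + 2) + L := by
    rw [Real.log_mul (by positivity) hTpos.ne']
  have hlogK : 0 ≤ Real.log (K + 2) := Real.log_nonneg (by linarith)
  have hm2 : lam * L / 2 * ∑ x ∈ S, (mz |x.1 + x.2 + c| : ℝ) ≤ X * (L / 2 + C4 / 2) := by
    refine hm.trans ?_
    have h1 : (S.card : ℝ) * Real.exp (p ^ 2 / 2 + p * (lam * L) + (1 - p) * (I * Real.log 2)) *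
        SS * (lam * L) = S.card * SS * (Real.exp (p ^ 2 / 2 + p * (lam * L) +
        (1 - p) * (I * Real.log 2)) * (lam * L)) := by ring
    rw [h1, hlogM]
    have h2 : (S.card : ℝ) * SS * (Real.exp (p ^ 2 / 2 + p * (lam * L) +
        (1 - p) * (I * Real.log 2)) * (lam * L)) ≤ X * SS * (2 * Real.exp (p ^ 2 / 2)) := by
      apply mul_le_mul _ hBb (by positivity) (by positivity)
      exact mul_le_mul_of_nonneg_right hScard hSS
    have h3 : (S.card : ℝ) * (Real.log (K + 2) + L) / 2 ≤ X * (Real.log (K + 2) + L) / 2 := by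
      have := mul_le_mul_of_nonneg_right hScard (show 0 ≤ Real.log (K + 2) + L by linarith)
      linarith
    have h4 : (S.card : ℝ) * C ≤ X * C := mul_le_mul_of_nonneg_right hScard hC.le
    have h5 : X * (L / 2 + C4 / 2) = X * (Real.log (K + 2) + L) / 2 +
        (2 * Cb / Real.sqrt η + 8 / η) * X + X * SS * (2 * Real.exp (p ^ 2 / 2)) + X * C := by
      rw [hC4, hC3]; ring
    rw [h5]
    exact add_le_add (add_le_add (add_le_add h3 hprime) h2) h4
  have hm3 : ∑ x ∈ S, (mz |x.1 + x.2 + c| : ℝ) ≤ (1 / 2 + ε / 2 + ε / 4) * X := by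
    have h0 : 0 < lam * L / 2 := by positivity
    have h1 : ∑ x ∈ S, (mz |x.1 + x.2 + c| : ℝ) ≤ X * (L / 2 + C4 / 2) / (lam * L / 2) := by
      rw [le_div_iff₀ h0, mul_comm]
      exact hm2
    refine h1.trans ?_
    have h2 : X * (L / 2 + C4 / 2) / (lam * L / 2) = (1 / lam + C4 / (lam * L)) * X := by
      field_simp
    rw [h2, hinv]
    apply mul_le_mul_of_nonneg_right _ hX0
    have h3 : C4 / (lam * L) ≤ ε / 4 := by
      rw [div_le_iff₀ (by positivity)]
      refine hLC.trans ?_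
      calc ρ * L ≤ lam * ε / 4 * L := mul_le_mul_of_nonneg_right hρ3 hL0.le
        _ = _ := by ring
    linarith
  -- counting
  set Z : Finset (ℝ × ℝ) := (A ×ˢ B).filter (fun x : ℝ × ℝ =>
      riemannZeta (1 / 2 + Complex.I * ((x.1 + x.2 + c : ℝ) : ℂ)) = 0) with hZ
  have hcount : (Z.card : ℝ) ≤ ∑ x ∈ S, (mz |x.1 + x.2 + c| : ℝ) + E.card := by
    have h1 : Z ⊆ (Z ∩ S) ∪ E := by
      intro x hx
      rw [mem_union, mem_inter]
      have hx' := hx
      rw [hZ, mem_filter] at hx'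
      by_cases hP' : P x
      · left
        refine ⟨hx, ?_⟩
        rw [hS, mem_filter]; exact ⟨hx'.1, hP'⟩
      · right
        rw [hE, mem_filter]; exact ⟨hx'.1, hP'⟩
    have h2 : Z.card ≤ (Z ∩ S).card + E.card :=
      (card_le_card h1).trans (card_union_le _ _)
    have h3 : ((Z ∩ S).card : ℝ) ≤ ∑ x ∈ S, (mz |x.1 + x.2 + c| : ℝ) := by
      calc ((Z ∩ S).card : ℝ) = ∑ x ∈ Z ∩ S, (1 : ℝ) := by simp
        _ ≤ ∑ x ∈ Z ∩ S, (mz |x.1 + x.2 + c| : ℝ) := by
            apply Finset.sum_le_sum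
            intro x hx
            rw [mem_inter] at hx
            have hz := (mem_filter.mp hx.1).2
            have hp' : tm ≤ |x.1 + x.2 + c| := (mem_filter.mp hx.2).2
            apply mz_one_le _ _ hz
            intro h0
            rw [h0, abs_zero] at hp'
            have he0 : 0 < Real.exp (4 * Real.sqrt (lam * L)) := Real.exp_pos _
            linarith
        _ ≤ _ := by
            apply Finset.sum_le_sum_of_subset_of_nonneg inter_subset_right
            intros; positivity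
    have h4 : (Z.card : ℝ) ≤ (Z ∩ S).card + E.card := by exact_mod_cast h2
    linarith
  have hfin : (Z.card : ℝ) ≤ (1 / 2 + ε) * X := by
    refine hcount.trans ?_
    linarith
  exact hfin

end Pool.Agent.H452R4.LI
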