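import Pool.Agent.H452R4.LI.Defs

/-! GAU: mean square of an exponential sum over a unit interval (helper991 for helper452) -/

set_option autoImplicit false

open Complex MeasureTheory Finset

namespace Pool.Agent.H452R4.LI

namespace GAUaux

theorem g_int (x0 : ℝ) : Integrable (fun t : ℝ => Real.exp (-(t - x0) ^ 2 / 2)) := by
  have h := (integrable_exp_neg_mul_sq (b := (1 / 2 : ℝ)) (by norm_num)).comp_sub_right x0
  refine h.congr (Filter.Eventually.of_forall fun t => ?_)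
  simp only
  congr 1
  ring

theorem ek_norm (x0 w t : ℝ) :
    ‖(Real.exp (-(t - x0) ^ 2 / 2) : ℂ) * cexp (I * w * t)‖ = Real.exp (-(t - x0) ^ 2 / 2) := by
  rw [norm_mul, Complex.norm_real, Real.norm_of_nonneg (Real.exp_pos _).le, Complex.norm_exp]
  have : (I * w * t : ℂ).re = 0 := by
    simp [Complex.mul_re]
  rw [this, Real.exp_zero, mul_one]

theorem ek_int (x0 w : ℝ) :
    Integrable (fun t : ℝ => (Real.exp (-(t - x0) ^ 2 / 2) : ℂ) * cexp (I * w * t)) := by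
  refine (g_int x0).mono' ?_ (Filter.Eventually.of_forall fun t => ?_)
  · apply Continuous.aestronglyMeasurable
    have : Continuous fun t : ℝ => Real.exp (-(t - x0) ^ 2 / 2) := by fun_prop
    fun_prop
  · rw [ek_norm]

theorem ek_val (x0 w : ℝ) :
    ∫ t : ℝ, (Real.exp (-(t - x0) ^ 2 / 2) : ℂ) * cexp (I * w * t) =
      ((Real.sqrt (2 * Real.pi) : ℝ) : ℂ) *
        (cexp (I * w * x0) * ((Real.exp (-(w ^ 2 / 2)) : ℝ) : ℂ)) := by
  have h1 : ∀ t : ℝ, (Real.exp (-(t - x0) ^ 2 / 2) : ℂ) * cexp (I * w * t) =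
      cexp (((-(1 / 2) : ℝ) : ℂ) * (t : ℂ) ^ 2 +
        ((x0 : ℝ) + I * w : ℂ) * t + ((-(x0 ^ 2 / 2) : ℝ) : ℂ)) := by
    intro t
    rw [Complex.ofReal_exp, ← Complex.exp_add]
    congr 1
    push_cast
    ring
  simp_rw [h1]
  rw [integral_cexp_quadratic (by
    rw [Complex.ofReal_re]
    norm_num)]
  have e1 : ((Real.pi : ℂ) / -((-(1 / 2) : ℝ) : ℂ)) ^ (1 / 2 : ℂ) =
      ((Real.sqrt (2 * Real.pi) : ℝ) : ℂ) := by
    have e2 : ((Real.pi : ℂ) / -((-(1 / 2) : ℝ) : ℂ)) = ((2 * Real.pi : ℝ) : ℂ) := by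
      push_cast
      ring
    have e3 : (1 / 2 : ℂ) = ((1 / 2 : ℝ) : ℂ) := by push_cast; ring
    rw [e2, e3, ← Complex.ofReal_cpow (by positivity), ← Real.sqrt_eq_rpow]
  have e4 : (((-(x0 ^ 2 / 2) : ℝ) : ℂ) - ((x0 : ℝ) + I * w : ℂ) ^ 2 /
      (4 * ((-(1 / 2) : ℝ) : ℂ))) = I * w * x0 + ((-(w ^ 2 / 2) : ℝ) : ℂ) := by
    push_cast
    have : I ^ 2 = -1 := Complex.I_sq
    linear_combination (w ^ 2 / 2 : ℂ) * this
  rw [e1, e4, Complex.exp_add, ← Complex.ofReal_exp]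

theorem ek_val_norm (x0 w : ℝ) :
    ‖∫ t : ℝ, (Real.exp (-(t - x0) ^ 2 / 2) : ℂ) * cexp (I * w * t)‖ =
      Real.sqrt (2 * Real.pi) * Real.exp (-(w ^ 2 / 2)) := by
  rw [ek_val, norm_mul, norm_mul, Complex.norm_real, Complex.norm_real,
    Real.norm_of_nonneg (Real.sqrt_nonneg _), Real.norm_of_nonneg (Real.exp_pos _).le,
    Complex.norm_exp]
  have : (I * w * x0 : ℂ).re = 0 := by
    simp [Complex.mul_re]
  rw [this, Real.exp_zero, one_mul]

theorem expand (A : Finset ℝ) (c : ℝ → ℂ) (x0 x : ℝ) :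
    ((Real.exp (-(x - x0) ^ 2 / 2) *
      ‖∑ a ∈ A, c a * Complex.exp (-(Complex.I * ((a * x : ℝ) : ℂ)))‖ ^ 2 : ℝ) : ℂ) =
    ∑ a ∈ A, ∑ b ∈ A, (c a * (starRingEnd ℂ) (c b)) *
      ((Real.exp (-(x - x0) ^ 2 / 2) : ℂ) * cexp (I * ((b - a : ℝ) : ℂ) * x)) := by
  have h1 : ((‖∑ a ∈ A, c a * Complex.exp (-(Complex.I * ((a * x : ℝ) : ℂ)))‖ ^ 2 : ℝ) : ℂ) =
      (∑ a ∈ A, c a * Complex.exp (-(Complex.I * ((a * x : ℝ) : ℂ)))) *
        (starRingEnd ℂ) (∑ a ∈ A, c a * Complex.exp (-(Complex.I * ((a * x : ℝ) : ℂ)))) := by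
    rw [Complex.mul_conj, Complex.normSq_eq_norm_sq]
  rw [Complex.ofReal_mul, h1, map_sum, Finset.sum_mul_sum, Finset.mul_sum]
  refine Finset.sum_congr rfl fun a _ => ?_
  rw [Finset.mul_sum]
  refine Finset.sum_congr rfl fun b _ => ?_
  rw [map_mul, ← Complex.exp_conj]
  have e1 : (starRingEnd ℂ) (-(I * ((b * x : ℝ) : ℂ))) = I * ((b * x : ℝ) : ℂ) := by
    rw [map_neg, map_mul, Complex.conj_I, Complex.conj_ofReal]
    ring
  rw [e1]
  have e2 : cexp (I * ((b - a : ℝ) : ℂ) * x) =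
      cexp (-(I * ((a * x : ℝ) : ℂ))) * cexp (I * ((b * x : ℝ) : ℂ)) := by
    rw [← Complex.exp_add]
    congr 1
    push_cast
    ring
  rw [e2]
  ring

end GAUaux

open GAUaux in
theorem gau : S_GAU := by
  refine ⟨Real.exp (1 / 2) * Real.sqrt (2 * Real.pi), by positivity, ?_⟩
  intro A c W x0 hW
  set F : ℝ → ℂ := fun x => ∑ a ∈ A, c a * Complex.exp (-(Complex.I * ((a * x : ℝ) : ℂ))) with hF
  have hFc : Continuous F := by
    rw [hF]
    fun_prop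
  set G : ℝ → ℝ := fun x => Real.exp (-(x - x0) ^ 2 / 2) * ‖F x‖ ^ 2 with hG
  have hGc : Continuous G := by
    rw [hG]
    fun_prop
  have hG0 : ∀ x, 0 ≤ G x := fun x => by simp only [hG]; positivity
  -- integrability
  have hsum : Integrable (fun x : ℝ => ∑ a ∈ A, ∑ b ∈ A, (c a * (starRingEnd ℂ) (c b)) *
      ((Real.exp (-(x - x0) ^ 2 / 2) : ℂ) * cexp (I * ((b - a : ℝ) : ℂ) * x))) :=
    integrable_finsetSum _ fun a _ => integrable_finsetSum _ fun b _ =>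
      (ek_int x0 (b - a)).const_mul _
  have hGi : Integrable G := by
    have h1 : Integrable (fun x => ((G x : ℝ) : ℂ)) := by
      refine hsum.congr (Filter.Eventually.of_forall fun x => ?_)
      exact (expand A c x0 x).symm
    exact h1.re.congr (Filter.Eventually.of_forall fun x => by simp)
  have hGval : ∫ x, G x ≤ Real.sqrt (2 * Real.pi) * (W * ∑ a ∈ A, ‖c a‖ ^ 2) := by
    have h1 : ((∫ x, G x : ℝ) : ℂ) = ∑ a ∈ A, ∑ b ∈ A, (c a * (starRingEnd ℂ) (c b)) *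
        ∫ x : ℝ, ((Real.exp (-(x - x0) ^ 2 / 2) : ℂ) * cexp (I * ((b - a : ℝ) : ℂ) * x)) := by
      rw [← integral_complex_ofReal]
      calc ∫ x, ((G x : ℝ) : ℂ) = ∫ x : ℝ, ∑ a ∈ A, ∑ b ∈ A, (c a * (starRingEnd ℂ) (c b)) *
          ((Real.exp (-(x - x0) ^ 2 / 2) : ℂ) * cexp (I * ((b - a : ℝ) : ℂ) * x)) :=
            integral_congr_ae (Filter.Eventually.of_forall fun x => expand A c x0 x)
        _ = _ := by
          rw [integral_finsetSum _ fun a _ => integrable_finsetSum _ fun b _ =>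
            (ek_int x0 (b - a)).const_mul _]
          refine Finset.sum_congr rfl fun a _ => ?_
          rw [integral_finsetSum _ fun b _ => (ek_int x0 (b - a)).const_mul _]
          refine Finset.sum_congr rfl fun b _ => ?_
          rw [integral_const_mul]
    have h2 : ∫ x, G x = ‖((∫ x, G x : ℝ) : ℂ)‖ := by
      rw [Complex.norm_real, Real.norm_of_nonneg (integral_nonneg hG0)]
    rw [h2, h1]
    have h3 : ∀ a ∈ A, ∀ b ∈ A, ‖(c a * (starRingEnd ℂ) (c b)) *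
        ∫ x : ℝ, ((Real.exp (-(x - x0) ^ 2 / 2) : ℂ) * cexp (I * ((b - a : ℝ) : ℂ) * x))‖ ≤
        Real.sqrt (2 * Real.pi) * ((‖c a‖ ^ 2 / 2) * Real.exp (-(a - b) ^ 2 / 2) +
          (‖c b‖ ^ 2 / 2) * Real.exp (-(b - a) ^ 2 / 2)) := by
      intro a _ b _
      rw [norm_mul, norm_mul, RCLike.norm_conj, ek_val_norm]
      have e1 : -((b - a) ^ 2 / 2) = -(b - a) ^ 2 / 2 := by ring
      have e2 : -(a - b) ^ 2 / 2 = -(b - a) ^ 2 / 2 := by ring
      rw [e1, e2]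
      have h4 : ‖c a‖ * ‖c b‖ ≤ ‖c a‖ ^ 2 / 2 + ‖c b‖ ^ 2 / 2 := by
        nlinarith [sq_nonneg (‖c a‖ - ‖c b‖)]
      calc ‖c a‖ * ‖c b‖ * (Real.sqrt (2 * Real.pi) * Real.exp (-(b - a) ^ 2 / 2))
          ≤ (‖c a‖ ^ 2 / 2 + ‖c b‖ ^ 2 / 2) *
            (Real.sqrt (2 * Real.pi) * Real.exp (-(b - a) ^ 2 / 2)) :=
            mul_le_mul_of_nonneg_right h4 (by positivity)
        _ = _ := by ring
    have h5 : ∀ a ∈ A, ∑ b ∈ A, (‖c a‖ ^ 2 / 2) * Real.exp (-(a - b) ^ 2 / 2) ≤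
        (‖c a‖ ^ 2 / 2) * W := by
      intro a ha
      rw [← Finset.mul_sum]
      exact mul_le_mul_of_nonneg_left (hW a ha) (by positivity)
    calc ‖∑ a ∈ A, ∑ b ∈ A, (c a * (starRingEnd ℂ) (c b)) *
        ∫ x : ℝ, ((Real.exp (-(x - x0) ^ 2 / 2) : ℂ) * cexp (I * ((b - a : ℝ) : ℂ) * x))‖
        ≤ ∑ a ∈ A, ∑ b ∈ A, Real.sqrt (2 * Real.pi) *
          ((‖c a‖ ^ 2 / 2) * Real.exp (-(a - b) ^ 2 / 2) +
          (‖c b‖ ^ 2 / 2) * Real.exp (-(b - a) ^ 2 / 2)) := by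
          refine (norm_sum_le _ _).trans (Finset.sum_le_sum fun a ha => ?_)
          exact (norm_sum_le _ _).trans (Finset.sum_le_sum fun b hb => h3 a ha b hb)
      _ = Real.sqrt (2 * Real.pi) * ((∑ a ∈ A, ∑ b ∈ A,
            (‖c a‖ ^ 2 / 2) * Real.exp (-(a - b) ^ 2 / 2)) +
          ∑ a ∈ A, ∑ b ∈ A, (‖c b‖ ^ 2 / 2) * Real.exp (-(b - a) ^ 2 / 2)) := by
          rw [← Finset.sum_add_distrib, Finset.mul_sum]
          refine Finset.sum_congr rfl fun a _ => ?_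
          rw [← Finset.sum_add_distrib, Finset.mul_sum]
      _ = Real.sqrt (2 * Real.pi) * ((∑ a ∈ A, ∑ b ∈ A,
            (‖c a‖ ^ 2 / 2) * Real.exp (-(a - b) ^ 2 / 2)) +
          ∑ b ∈ A, ∑ a ∈ A, (‖c b‖ ^ 2 / 2) * Real.exp (-(b - a) ^ 2 / 2)) := by
          rw [Finset.sum_comm (s := A) (t := A)
            (f := fun a b => (‖c b‖ ^ 2 / 2) * Real.exp (-(b - a) ^ 2 / 2))]
      _ ≤ Real.sqrt (2 * Real.pi) * ((∑ a ∈ A, (‖c a‖ ^ 2 / 2) * W) +
          ∑ b ∈ A, (‖c b‖ ^ 2 / 2) * W) := by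
          refine mul_le_mul_of_nonneg_left ?_ (Real.sqrt_nonneg _)
          exact add_le_add (Finset.sum_le_sum h5) (Finset.sum_le_sum h5)
      _ = Real.sqrt (2 * Real.pi) * (W * ∑ a ∈ A, ‖c a‖ ^ 2) := by
          rw [← Finset.sum_add_distrib]
          congr 1
          rw [Finset.mul_sum]
          refine Finset.sum_congr rfl fun a _ => ?_
          ring
  -- the interval
  have h1 : ∫ x in x0..(x0 + 1), ‖F x‖ ^ 2 ≤ ∫ x in x0..(x0 + 1), Real.exp (1 / 2) * G x := by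
    refine intervalIntegral.integral_mono_on (by linarith)
      (Continuous.intervalIntegrable (by fun_prop) _ _)
      (Continuous.intervalIntegrable (by fun_prop) _ _) fun x hx => ?_
    simp only [hG]
    rw [← mul_assoc, ← Real.exp_add]
    have h2 : 1 ≤ Real.exp (1 / 2 + -(x - x0) ^ 2 / 2) := by
      apply Real.one_le_exp
      nlinarith [hx.1, hx.2]
    nlinarith [sq_nonneg ‖F x‖]
  have h2 : ∫ x in x0..(x0 + 1), Real.exp (1 / 2) * G x ≤ Real.exp (1 / 2) * ∫ x, G x := by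
    rw [intervalIntegral.integral_const_mul]
    refine mul_le_mul_of_nonneg_left ?_ (Real.exp_pos _).le
    rw [intervalIntegral.integral_of_le (by linarith)]
    exact setIntegral_le_integral hGi (Filter.Eventually.of_forall hG0)
  calc ∫ x in x0..(x0 + 1), ‖F x‖ ^ 2 ≤ Real.exp (1 / 2) * ∫ x, G x := h1.trans h2
    _ ≤ Real.exp (1 / 2) * (Real.sqrt (2 * Real.pi) * (W * ∑ a ∈ A, ‖c a‖ ^ 2)) :=
        mul_le_mul_of_nonneg_left hGval (Real.exp_pos _).le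
    _ = _ := by ring

end Pool.Agent.H452R4.LI
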