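import Pool.Agent.H452R4.LI.Defs2

/-! Task GI (helper255): the basic inequality for an arbitrary finite family of points; adapted from
`Pool.Agent.H345R2.AP.main_ineq`. -/

set_option autoImplicit false

open Finset ArithmeticFunction MeasureTheory intervalIntegral

namespace Pool.Agent.H452R4.LI

open Pool.Agent.H345R2.AP

lemma GI_re (t u : ℝ) (n : ℕ) :
    ((vonMangoldt n : ℂ) * (n : ℂ) ^ (-(1 / 2 : ℂ) - Complex.I * (t : ℂ)) *
      (Real.exp (-(u - Real.log n) ^ 2 / 2) : ℂ)).re =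
      vonMangoldt n * (n : ℝ) ^ (-(1 / 2 : ℝ)) * Real.exp (-(u - Real.log n) ^ 2 / 2) *
        Real.cos (t * Real.log n) := by
  rcases Nat.eq_zero_or_pos n with h | h
  · subst h; simp
  · rw [cpow_split n h]
    have h1 : Complex.exp (-(Complex.I * ((t * Real.log n : ℝ) : ℂ))) =
        Complex.exp (((-(t * Real.log n) : ℝ) : ℂ) * Complex.I) := by
      congr 1; push_cast; ring
    rw [h1]
    have h2 : (vonMangoldt n : ℂ) * ((((n : ℝ) ^ (-(1 / 2 : ℝ)) : ℝ) : ℂ) *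
        Complex.exp (((-(t * Real.log n) : ℝ) : ℂ) * Complex.I)) *
        (Real.exp (-(u - Real.log n) ^ 2 / 2) : ℂ) =
        ((vonMangoldt n * (n : ℝ) ^ (-(1 / 2 : ℝ)) * Real.exp (-(u - Real.log n) ^ 2 / 2) : ℝ) : ℂ) *
        Complex.exp (((-(t * Real.log n) : ℝ) : ℂ) * Complex.I) := by
      rw [Complex.ofReal_mul, Complex.ofReal_mul]
      ring
    rw [h2, Complex.re_ofReal_mul, Complex.exp_ofReal_mul_I_re, Real.cos_neg]

lemma GI_cos (a x : ℝ) : Real.cos (|a| * x) = Real.cos (a * x) := by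
  rcases abs_choice a with h | h
  · rw [h]
  · rw [h, neg_mul, Real.cos_neg]

theorem GI_prime {ι : Type} (S : Finset ι) (f : ι → ℝ) (N : ℕ) (hN : 1 ≤ N) (p U u : ℝ)
    (hp : 1 ≤ p) (hu0 : 0 ≤ u) (hu : u ≤ U) :
    |∑ i ∈ S, (∑' n : ℕ, (vonMangoldt n : ℂ) *
        (n : ℂ) ^ (-(1 / 2 : ℂ) - Complex.I * ((|f i| : ℝ) : ℂ)) *
        (Real.exp (-(u - Real.log n) ^ 2 / 2) : ℂ)).re| ≤
      ∑ n ∈ Ico 1 N, vonMangoldt n * (n : ℝ) ^ (-(1 / 2 : ℝ)) *
        |∑ i ∈ S, Real.cos (f i * Real.log n)| * Real.exp (-(u - Real.log n) ^ 2 / 2) +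
      S.card * Real.exp (p ^ 2 / 2 + p * U + (1 - p) * Real.log N) * SS := by
  classical
  have h0 : ∀ i, (∑' n : ℕ, (vonMangoldt n : ℂ) *
        (n : ℂ) ^ (-(1 / 2 : ℂ) - Complex.I * ((|f i| : ℝ) : ℂ)) *
        (Real.exp (-(u - Real.log n) ^ 2 / 2) : ℂ)).re =
      ∑' n : ℕ, (vonMangoldt n * (n : ℝ) ^ (-(1 / 2 : ℝ)) * Real.exp (-(u - Real.log n) ^ 2 / 2) *
        Real.cos (f i * Real.log n)) := by
    intro i
    rw [Complex.re_tsum (term_summable _ u hu0)]
    refine tsum_congr fun n => ?_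
    rw [GI_re, GI_cos]
  have hsm : ∀ i, Summable (fun n : ℕ => (vonMangoldt n * (n : ℝ) ^ (-(1 / 2 : ℝ)) *
      Real.exp (-(u - Real.log n) ^ 2 / 2) * Real.cos (f i * Real.log n))) := by
    intro i
    have h1 := (Complex.reCLM.hasSum (term_summable |f i| u hu0).hasSum).summable
    refine h1.congr fun n => ?_
    rw [Complex.reCLM_apply, GI_re, GI_cos]
  simp only [h0]
  rw [← Summable.tsum_finsetSum (fun i _ => hsm i)]
  set D : ℕ → ℝ := fun n => |∑ i ∈ S, Real.cos (f i * Real.log n)| with hD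
  have hD0 : ∀ n, 0 ≤ D n := fun n => abs_nonneg _
  have hDK : ∀ n, D n ≤ S.card := by
    intro n
    refine (Finset.abs_sum_le_sum_abs _ _).trans ?_
    refine (Finset.sum_le_card_nsmul _ _ 1 fun i _ => Real.abs_cos_le_one _).trans ?_
    rw [nsmul_eq_mul, mul_one]
  set B := Real.exp (p ^ 2 / 2 + p * U + (1 - p) * Real.log N) with hB
  have hB0 : 0 < B := Real.exp_pos _
  set g : ℕ → ℝ := fun n => if n ∈ Ico 1 N then vonMangoldt n * (n : ℝ) ^ (-(1 / 2 : ℝ)) * D n *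
        Real.exp (-(u - Real.log n) ^ 2 / 2) else 0 with hg
  have hfs : HasSum g (∑ n ∈ Ico 1 N, vonMangoldt n * (n : ℝ) ^ (-(1 / 2 : ℝ)) * D n *
        Real.exp (-(u - Real.log n) ^ 2 / 2)) := by
    have h1 : HasSum g (∑ n ∈ Ico 1 N, g n) :=
      hasSum_sum_of_ne_finset_zero fun n hn => by simp only [hg]; rw [if_neg hn]
    have h2 : ∑ n ∈ Ico 1 N, g n = ∑ n ∈ Ico 1 N, vonMangoldt n * (n : ℝ) ^ (-(1 / 2 : ℝ)) * D n *
        Real.exp (-(u - Real.log n) ^ 2 / 2) :=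
      Finset.sum_congr rfl fun n hn => by simp only [hg]; rw [if_pos hn]
    rwa [h2] at h1
  have hgs : HasSum (fun n : ℕ => S.card * B * (vonMangoldt n * (n : ℝ) ^ (-(3 / 2 : ℝ))))
      (S.card * B * SS) :=
    H370.lam_summable.hasSum.mul_left _
  rw [← Real.norm_eq_abs]
  refine tsum_of_norm_bounded (hfs.add hgs) fun n => ?_
  rcases Nat.eq_zero_or_pos n with h | h
  · subst h
    simp [hg]
  rw [← Finset.mul_sum, Real.norm_eq_abs, abs_mul,
    abs_of_nonneg (mul_nonneg (mul_nonneg vonMangoldt_nonneg (by positivity)) (by positivity))]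
  change vonMangoldt n * (n : ℝ) ^ (-(1 / 2 : ℝ)) * Real.exp (-(u - Real.log n) ^ 2 / 2) * D n ≤ _
  have hnn : 0 ≤ vonMangoldt n * (n : ℝ) ^ (-(3 / 2 : ℝ)) :=
    mul_nonneg vonMangoldt_nonneg (by positivity)
  by_cases hnN : n < N
  · have h1 : g n = vonMangoldt n * (n : ℝ) ^ (-(1 / 2 : ℝ)) * D n *
        Real.exp (-(u - Real.log n) ^ 2 / 2) := by
      simp only [hg]; rw [if_pos (mem_Ico.mpr ⟨h, hnN⟩)]
    rw [h1]
    have h2 : 0 ≤ S.card * B * (vonMangoldt n * (n : ℝ) ^ (-(3 / 2 : ℝ))) :=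
      mul_nonneg (by positivity) hnn
    nlinarith
  · have h1 : g n = 0 := by
      simp only [hg]; rw [if_neg]; rw [mem_Ico]; omega
    rw [h1, zero_add]
    have h2 := tail_pt N n hN (by omega) p U u hp hu
    rw [rpow_half_split n h]
    calc vonMangoldt n * ((n : ℝ) ^ (-(3 / 2 : ℝ)) * n) * Real.exp (-(u - Real.log n) ^ 2 / 2) * D n
        = (vonMangoldt n * (n : ℝ) ^ (-(3 / 2 : ℝ))) *
          ((n * Real.exp (-(u - Real.log n) ^ 2 / 2)) * D n) := by
          ring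
      _ ≤ (vonMangoldt n * (n : ℝ) ^ (-(3 / 2 : ℝ))) * (B * S.card) := by
          apply mul_le_mul_of_nonneg_left _ hnn
          exact mul_le_mul h2 (hDK n) (hD0 n) hB0.le
      _ = _ := by ring

lemma GI_log (t : ℝ) (ht : 0 < t) : Real.log (2 * t / 3) ≤ t / 3 := by
  have h1 := Real.log_le_sub_one_of_pos (x := 2 * t / 3 / 2) (by positivity)
  have h2 : Real.log (2 * t / 3) = Real.log 2 + Real.log (2 * t / 3 / 2) := by
    rw [← Real.log_mul (by norm_num) (by positivity)]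
    congr 1
    ring
  have h3 := Real.log_two_lt_d9
  rw [h2]
  linarith

theorem gi : S_GI := by
  intro hRH
  obtain ⟨C, T0, hC, hT0, hE⟩ := LG.EFX hRH
  refine ⟨C, 2 * T0, hC, by linarith, ?_⟩
  intro ι S f M U p N hU hp hN hk
  set T : ι → ℝ := fun i => 2 * |f i| / 3 with hTdef
  have hT : ∀ i ∈ S, T0 ≤ T i := by
    intro i hi
    have := (hk i hi).1
    simp only [hTdef]
    linarith
  have hT1 : ∀ i ∈ S, 1 ≤ T i := fun i hi => by linarith [hT i hi]
  have hlt : ∀ i ∈ S, T i < |f i| := by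
    intro i hi
    have := (hk i hi).1
    simp only [hTdef]
    linarith
  have hlt2 : ∀ i ∈ S, |f i| ≤ 2 * T i := by
    intro i hi
    have := (hk i hi).1
    simp only [hTdef]
    linarith
  have hlg : ∀ i ∈ S, Real.log (T i) ≤ |f i| / 3 := by
    intro i hi
    have := (hk i hi).1
    exact GI_log _ (by linarith)
  have ha1 : ∀ i ∈ S, T i + Real.log (T i) ≤ |f i| := by
    intro i hi
    have := hlg i hi
    simp only [hTdef] at this ⊢
    linarith
  have ha2 : ∀ i ∈ S, |f i| ≤ 2 * T i - Real.log (T i) := by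
    intro i hi
    have := hlg i hi
    simp only [hTdef] at this ⊢
    linarith
  have hUL : ∀ i ∈ S, U ≤ Real.log (T i) ^ 2 / 16 := by
    intro i hi
    obtain ⟨h1, h2, h3⟩ := hk i hi
    have h4 : 0 ≤ Real.log (|f i| / 2) := Real.log_nonneg (by linarith)
    have h5 : Real.log (|f i| / 2) ≤ Real.log (T i) := by
      apply Real.log_le_log (by linarith)
      simp only [hTdef]
      linarith
    have h6 : Real.log (|f i| / 2) ^ 2 ≤ Real.log (T i) ^ 2 := pow_le_pow_left₀ h4 h5 2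
    linarith
  have hLM : ∀ i ∈ S, Real.log (T i) ≤ Real.log M := by
    intro i hi
    obtain ⟨h1, h2, h3⟩ := hk i hi
    apply Real.log_le_log
    · linarith [hT1 i hi]
    · linarith [hlt i hi]
  set K : ℝ := (S.card : ℝ) with hKdef
  have hK0 : 0 ≤ K := Nat.cast_nonneg _
  set L := Real.log M with hL
  have hKL : 0 ≤ K * L := by
    rcases S.eq_empty_or_nonempty with h | ⟨i, hi⟩
    · rw [hKdef, h]; simp
    · have h1 := hLM i hi
      have h2 : 0 ≤ Real.log (T i) := Real.log_nonneg (hT1 i hi)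
      exact mul_nonneg hK0 (h2.trans h1)
  set c0 : ℝ := 1 / Real.sqrt (2 * Real.pi) with hc0
  have hpi := Real.pi_gt_three
  have hs1 : 1 ≤ Real.sqrt (2 * Real.pi) := by
    rw [show (1 : ℝ) = Real.sqrt 1 by simp]
    exact Real.sqrt_le_sqrt (by linarith)
  have hs0 : 0 < Real.sqrt (2 * Real.pi) := by linarith
  have hc00 : 0 < c0 := by positivity
  have hc01 : c0 ≤ 1 := by
    rw [hc0, div_le_one hs0]; exact hs1
  have hc0s : c0 * Real.sqrt (2 * Real.pi) = 1 := by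
    rw [hc0]; field_simp
  set B := Real.exp (p ^ 2 / 2 + p * U + (1 - p) * Real.log N) with hB
  have hB0 : 0 < B := Real.exp_pos _
  have hSS := SS_nonneg
  set D : ℕ → ℝ := fun n => |∑ i ∈ S, Real.cos (f i * Real.log n)| with hD
  have hD0 : ∀ n, 0 ≤ D n := fun n => abs_nonneg _
  -- pointwise
  have hpt : ∀ u ∈ Set.Icc (0 : ℝ) U, ∑ i ∈ S, (Zs (T i) (|f i|) u).re ≤
      c0 * (K * L * Real.exp (-u ^ 2 / 2) +
        ∑ n ∈ Ico 1 N, vonMangoldt n * (n : ℝ) ^ (-(1 / 2 : ℝ)) * D n *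
        Real.exp (-(u - Real.log n) ^ 2 / 2) + K * B * SS) + K * C * Real.exp (-u) := by
    intro u hu
    have hpr := GI_prime S f N hN p U u hp hu.1 hu.2
    set P : ι → ℂ := fun i => ∑' n : ℕ, (vonMangoldt n : ℂ) *
        (n : ℂ) ^ (-(1 / 2 : ℂ) - Complex.I * ((|f i| : ℝ) : ℂ)) *
        (Real.exp (-(u - Real.log n) ^ 2 / 2) : ℂ) with hP
    have h1 : ∀ i ∈ S, (Zs (T i) (|f i|) u).re ≤
        c0 * (L * Real.exp (-u ^ 2 / 2) - (P i).re) + C * Real.exp (-u) := by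
      intro i hi
      have h2 : ‖Zs (T i) (|f i|) u -
        (c0 : ℂ) * (((Real.log (T i) * Real.exp (-u ^ 2 / 2) : ℝ) : ℂ) - P i)‖ ≤
          C * Real.exp (-u) :=
        hE (T i) (hT i hi) u (|f i|) hu.1 (hu.2.trans (hUL i hi)) (ha1 i hi) (ha2 i hi)
      have h3 := (Complex.re_le_norm _).trans h2
      rw [Complex.sub_re, Complex.re_ofReal_mul, Complex.sub_re, Complex.ofReal_re] at h3
      have h4 : Real.log (T i) * Real.exp (-u ^ 2 / 2) ≤ L * Real.exp (-u ^ 2 / 2) :=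
        mul_le_mul_of_nonneg_right (hLM i hi) (Real.exp_pos _).le
      have h5 := mul_le_mul_of_nonneg_left h4 hc00.le
      linarith
    have h2 : ∑ i ∈ S, (Zs (T i) (|f i|) u).re ≤
        ∑ i ∈ S, (c0 * (L * Real.exp (-u ^ 2 / 2) - (P i).re) + C * Real.exp (-u)) :=
      Finset.sum_le_sum h1
    have h3 : ∑ i ∈ S, (c0 * (L * Real.exp (-u ^ 2 / 2) - (P i).re) + C * Real.exp (-u)) =
        c0 * (K * L * Real.exp (-u ^ 2 / 2) - ∑ i ∈ S, (P i).re) + K * C * Real.exp (-u) := by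
      rw [Finset.sum_add_distrib, ← Finset.mul_sum, Finset.sum_sub_distrib, Finset.sum_const,
        Finset.sum_const, nsmul_eq_mul, nsmul_eq_mul]
      ring
    rw [h3] at h2
    have h6 : c0 * (-(∑ i ∈ S, (P i).re)) ≤
        c0 * (∑ n ∈ Ico 1 N, vonMangoldt n * (n : ℝ) ^ (-(1 / 2 : ℝ)) * D n *
        Real.exp (-(u - Real.log n) ^ 2 / 2) + K * B * SS) :=
      mul_le_mul_of_nonneg_left ((neg_le_abs _).trans hpr) hc00.le
    linarith
  -- integrate
  have hcont : Continuous (fun u => ∑ i ∈ S, (Zs (T i) (|f i|) u).re) :=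
    continuous_finsetSum S (fun i hi => Zs_cont (T i) (|f i|) (hT1 i hi))
  have hz : U / 2 * ∑ i ∈ S, (mz |f i| : ℝ) ≤
      ∫ u in (0 : ℝ)..U, (1 - u / U) * ∑ i ∈ S, (Zs (T i) (|f i|) u).re := by
    simp only [Finset.mul_sum]
    rw [intervalIntegral.integral_finsetSum]
    · refine Finset.sum_le_sum fun i hi => ?_
      exact zero_side (T i) (|f i|) U (hT1 i hi) hU (hlt i hi) (hlt2 i hi)
    · intro i hi
      have := Zs_cont (T i) (|f i|) (hT1 i hi)
      exact Continuous.intervalIntegrable (by fun_prop) _ _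
  refine hz.trans ?_
  have hmono : ∫ u in (0 : ℝ)..U, (1 - u / U) * ∑ i ∈ S, (Zs (T i) (|f i|) u).re ≤
      ∫ u in (0 : ℝ)..U, (c0 * (K * L * Real.exp (-u ^ 2 / 2) +
        ∑ n ∈ Ico 1 N, vonMangoldt n * (n : ℝ) ^ (-(1 / 2 : ℝ)) * D n *
        Real.exp (-(u - Real.log n) ^ 2 / 2) + K * B * SS) + K * C * Real.exp (-u)) := by
    apply intervalIntegral.integral_mono_on hU.le
    · have h8 : Continuous (fun u : ℝ => (1 - u / U)) := by fun_prop
      exact (h8.mul hcont).intervalIntegrable _ _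
    · exact Continuous.intervalIntegrable (by fun_prop) _ _
    · intro u hu
      have hw0 : 0 ≤ 1 - u / U := by
        rw [sub_nonneg, div_le_one hU]; exact hu.2
      have hw1 : 1 - u / U ≤ 1 := by
        have : 0 ≤ u / U := div_nonneg hu.1 hU.le
        linarith
      have hR0 : 0 ≤ c0 * (K * L * Real.exp (-u ^ 2 / 2) +
        ∑ n ∈ Ico 1 N, vonMangoldt n * (n : ℝ) ^ (-(1 / 2 : ℝ)) * D n *
        Real.exp (-(u - Real.log n) ^ 2 / 2) + K * B * SS) + K * C * Real.exp (-u) := by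
        have h7 : 0 ≤ ∑ n ∈ Ico 1 N, vonMangoldt n * (n : ℝ) ^ (-(1 / 2 : ℝ)) * D n *
            Real.exp (-(u - Real.log n) ^ 2 / 2) :=
          Finset.sum_nonneg fun n _ => mul_nonneg (mul_nonneg (mul_nonneg vonMangoldt_nonneg
            (by positivity)) (hD0 n)) (Real.exp_pos _).le
        have h8 : 0 ≤ K * L * Real.exp (-u ^ 2 / 2) := mul_nonneg hKL (Real.exp_pos _).le
        have h9 : 0 ≤ K * B * SS := mul_nonneg (mul_nonneg hK0 hB0.le) hSS
        have h10 : 0 ≤ K * C * Real.exp (-u) :=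
          mul_nonneg (mul_nonneg hK0 hC.le) (Real.exp_pos _).le
        have h11 : 0 ≤ c0 * (K * L * Real.exp (-u ^ 2 / 2) +
          ∑ n ∈ Ico 1 N, vonMangoldt n * (n : ℝ) ^ (-(1 / 2 : ℝ)) * D n *
          Real.exp (-(u - Real.log n) ^ 2 / 2) + K * B * SS) :=
          mul_nonneg hc00.le (by linarith)
        linarith
      calc (1 - u / U) * ∑ i ∈ S, (Zs (T i) (|f i|) u).re ≤ (1 - u / U) * _ :=
            mul_le_mul_of_nonneg_left (hpt u hu) hw0
        _ ≤ _ := by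
          refine (mul_le_mul_of_nonneg_right hw1 hR0).trans (le_of_eq (one_mul _))
  refine hmono.trans ?_
  rw [intervalIntegral.integral_add (Continuous.intervalIntegrable (by fun_prop) _ _)
    (Continuous.intervalIntegrable (by fun_prop) _ _), intervalIntegral.integral_const_mul,
    intervalIntegral.integral_const_mul,
    intervalIntegral.integral_add (Continuous.intervalIntegrable (by fun_prop) _ _)
    (Continuous.intervalIntegrable (by fun_prop) _ _),
    intervalIntegral.integral_add (Continuous.intervalIntegrable (by fun_prop) _ _)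
    (Continuous.intervalIntegrable (by fun_prop) _ _), intervalIntegral.integral_const_mul,
    intervalIntegral.integral_const,
    intervalIntegral.integral_finsetSum (fun n _ =>
      Continuous.intervalIntegrable (by fun_prop) _ _)]
  simp only [intervalIntegral.integral_const_mul, sub_zero, smul_eq_mul]
  have g1 := gauss_half U hU.le
  have g3 := exp_int U hU.le
  have hS : ∑ n ∈ Ico 1 N, vonMangoldt n * (n : ℝ) ^ (-(1 / 2 : ℝ)) * D n *
      ∫ u in (0 : ℝ)..U, Real.exp (-(u - Real.log n) ^ 2 / 2) ≤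
      (∑ n ∈ Ico 1 N, vonMangoldt n * (n : ℝ) ^ (-(1 / 2 : ℝ)) * D n) *
        Real.sqrt (2 * Real.pi) := by
    rw [Finset.sum_mul]
    refine Finset.sum_le_sum fun n _ => ?_
    apply mul_le_mul_of_nonneg_left (gauss_full U _ hU.le)
    exact mul_nonneg (mul_nonneg vonMangoldt_nonneg (by positivity)) (hD0 n)
  set Q := ∑ n ∈ Ico 1 N, vonMangoldt n * (n : ℝ) ^ (-(1 / 2 : ℝ)) * D n with hQ
  have hKC : 0 ≤ K * C := mul_nonneg hK0 hC.le
  have t1 : K * L * ∫ u in (0 : ℝ)..U, Real.exp (-u ^ 2 / 2) ≤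
      K * L * (Real.sqrt (2 * Real.pi) / 2) := mul_le_mul_of_nonneg_left g1 hKL
  have t3 : K * C * ∫ u in (0 : ℝ)..U, Real.exp (-u) ≤ K * C * 1 :=
    mul_le_mul_of_nonneg_left g3 hKC
  have t4 : c0 * (U * (K * B * SS)) ≤ 1 * (U * (K * B * SS)) :=
    mul_le_mul_of_nonneg_right hc01
      (mul_nonneg hU.le (mul_nonneg (mul_nonneg hK0 hB0.le) hSS))
  have t5 : c0 * (K * L * (∫ u in (0 : ℝ)..U, Real.exp (-u ^ 2 / 2)) +
      (∑ n ∈ Ico 1 N, vonMangoldt n * (n : ℝ) ^ (-(1 / 2 : ℝ)) * D n *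
      ∫ u in (0 : ℝ)..U, Real.exp (-(u - Real.log n) ^ 2 / 2))) ≤
      c0 * (K * L * (Real.sqrt (2 * Real.pi) / 2) + Q * Real.sqrt (2 * Real.pi)) :=
    mul_le_mul_of_nonneg_left (add_le_add t1 hS) hc00.le
  have t6 : c0 * (K * L * (Real.sqrt (2 * Real.pi) / 2) + Q * Real.sqrt (2 * Real.pi)) =
      (K * L / 2 + Q) * (c0 * Real.sqrt (2 * Real.pi)) := by ring
  rw [t6, hc0s] at t5
  nlinarith [t5, t3, t4]

end Pool.Agent.H452R4.LI
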