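import Pool.Agent.H452R4.LI.Defs

set_option autoImplicit false

open Finset ArithmeticFunction MeasureTheory intervalIntegral

namespace Pool.Agent.H452R4.LI

/-- exponential sum with coefficients -/
noncomputable def mvS (A : Finset ℝ) (c : ℝ → ℂ) (x : ℝ) : ℂ :=
  ∑ a ∈ A, c a * Complex.exp (-(Complex.I * ((a * x : ℝ) : ℂ)))

lemma mvS_hasDerivAt (A : Finset ℝ) (c : ℝ → ℂ) (x : ℝ) :
    HasDerivAt (mvS A c) (mvS A (fun a => c a * (-(Complex.I * (a : ℂ)))) x) x := by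
  unfold mvS
  apply HasDerivAt.fun_sum
  intro a _
  have h1 : HasDerivAt (fun x : ℝ => ((x : ℝ) : ℂ)) 1 x := Complex.ofRealCLM.hasDerivAt
  have h2 : HasDerivAt (fun x : ℝ => -(Complex.I * ((a * x : ℝ) : ℂ))) (-(Complex.I * (a : ℂ))) x := by
    have h3 := (h1.const_mul (-(Complex.I * (a : ℂ))))
    rw [mul_one] at h3
    refine h3.congr_of_eventuallyEq (Filter.Eventually.of_forall fun y => ?_)
    push_cast
    ring
  have h4 := (h2.cexp).const_mul (c a)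
  refine h4.congr_deriv ?_
  ring

lemma mvS_cont (A : Finset ℝ) (c : ℝ → ℂ) : Continuous (mvS A c) :=
  continuous_iff_continuousAt.2 fun x => (mvS_hasDerivAt A c x).continuousAt

lemma mv_sob (g g' : ℝ → ℂ) (hd : ∀ u, HasDerivAt g (g' u) u) (hdc : Continuous g') (a b : ℝ)
    (hab : a < b) :
    (b - a) * ‖g b‖ ^ 2 ≤ (∫ u in a..b, ‖g u‖ ^ 2) +
      (b - a) * ∫ u in a..b, 2 * (‖g u‖ * ‖g' u‖) := by
  have hgc : Continuous g := continuous_iff_continuousAt.2 fun x => (hd x).continuousAt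
  have hF : ∀ u, HasDerivAt (fun u => ‖g u‖ ^ 2) (2 * inner ℝ (g u) (g' u)) u :=
    fun u => (hd u).norm_sq
  have hin : Continuous fun u => 2 * inner ℝ (g u) (g' u) :=
    continuous_const.mul (hgc.inner hdc)
  have hprod : Continuous fun u => 2 * (‖g u‖ * ‖g' u‖) :=
    continuous_const.mul (hgc.norm.mul hdc.norm)
  have hsq : Continuous fun u => ‖g u‖ ^ 2 := hgc.norm.pow 2
  set A := ∫ u in a..b, 2 * (‖g u‖ * ‖g' u‖) with hA
  have h1 : ∀ u ∈ Set.Icc a b, ‖g b‖ ^ 2 ≤ ‖g u‖ ^ 2 + A := by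
    intro u hu
    have h2 := intervalIntegral.integral_eq_sub_of_hasDerivAt (a := u) (b := b)
      (fun x _ => hF x) (hin.intervalIntegrable _ _)
    have h3 : ∫ x in u..b, 2 * inner ℝ (g x) (g' x) ≤
        ∫ x in u..b, 2 * (‖g x‖ * ‖g' x‖) := by
      apply intervalIntegral.integral_mono_on hu.2 (hin.intervalIntegrable _ _)
        (hprod.intervalIntegrable _ _)
      intro x _
      have := real_inner_le_norm (g x) (g' x)
      linarith
    have h4 : ∫ x in u..b, 2 * (‖g x‖ * ‖g' x‖) ≤ A := by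
      rw [hA, ← intervalIntegral.integral_add_adjacent_intervals (a := a) (b := u) (c := b)
        (hprod.intervalIntegrable _ _) (hprod.intervalIntegrable _ _)]
      have : 0 ≤ ∫ x in a..u, 2 * (‖g x‖ * ‖g' x‖) :=
        intervalIntegral.integral_nonneg hu.1 fun x _ => by positivity
      linarith
    linarith
  have h5 : ∫ _u in a..b, ‖g b‖ ^ 2 ≤ ∫ u in a..b, (‖g u‖ ^ 2 + A) := by
    apply intervalIntegral.integral_mono_on hab.le (continuous_const.intervalIntegrable _ _)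
      ((hsq.add continuous_const).intervalIntegrable _ _)
    intro x hx
    exact h1 x hx
  rw [intervalIntegral.integral_add (hsq.intervalIntegrable _ _)
    (continuous_const.intervalIntegrable _ _)] at h5
  simp only [intervalIntegral.integral_const, smul_eq_mul] at h5
  exact h5

lemma mv_step (g g' : ℝ → ℂ) (hd : ∀ u, HasDerivAt g (g' u) u) (hdc : Continuous g') (D k : ℕ)
    (hD : 1 ≤ D) (hk : k ∈ Ico D (2 * D)) :
    ‖g (Real.log ((k + 1 : ℕ) : ℝ))‖ ^ 2 ≤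
      ∫ u in (Real.log (k : ℝ))..(Real.log ((k + 1 : ℕ) : ℝ)),
        ((2 * D : ℝ) * ‖g u‖ ^ 2 + 2 * (‖g u‖ * ‖g' u‖)) := by
  have hgc : Continuous g := continuous_iff_continuousAt.2 fun x => (hd x).continuousAt
  have hprod : Continuous fun u => 2 * (‖g u‖ * ‖g' u‖) :=
    continuous_const.mul (hgc.norm.mul hdc.norm)
  have hsq : Continuous fun u => ‖g u‖ ^ 2 := hgc.norm.pow 2
  rw [mem_Ico] at hk
  have hk0 : (0 : ℝ) < k := by exact_mod_cast (by omega : 0 < k)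
  have hk1 : (0 : ℝ) < ((k + 1 : ℕ) : ℝ) := by positivity
  have hlt : Real.log (k : ℝ) < Real.log ((k + 1 : ℕ) : ℝ) :=
    Real.log_lt_log hk0 (by push_cast; linarith)
  have h := mv_sob g g' hd hdc _ _ hlt
  -- the length of the interval
  have hlen : 1 / ((k + 1 : ℕ) : ℝ) ≤ Real.log ((k + 1 : ℕ) : ℝ) - Real.log (k : ℝ) := by
    have h1 : Real.log ((k : ℝ) / ((k + 1 : ℕ) : ℝ)) ≤ (k : ℝ) / ((k + 1 : ℕ) : ℝ) - 1 :=
      Real.log_le_sub_one_of_pos (by positivity)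
    rw [Real.log_div hk0.ne' hk1.ne'] at h1
    have h2 : (k : ℝ) / ((k + 1 : ℕ) : ℝ) - 1 = - (1 / ((k + 1 : ℕ) : ℝ)) := by
      field_simp
      push_cast
      ring
    linarith
  set L := Real.log ((k + 1 : ℕ) : ℝ) - Real.log (k : ℝ) with hLdef
  have hLpos : 0 < L := by rw [hLdef]; linarith
  have h2D : 1 ≤ L * (2 * D) := by
    have h3 : ((k + 1 : ℕ) : ℝ) ≤ 2 * D := by exact_mod_cast (by omega : k + 1 ≤ 2 * D)
    have h4 : 1 = (1 / ((k + 1 : ℕ) : ℝ)) * ((k + 1 : ℕ) : ℝ) := by field_simp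
    rw [h4]
    exact mul_le_mul hlen h3 hk1.le hLpos.le
  have hI0 : 0 ≤ ∫ u in (Real.log (k : ℝ))..(Real.log ((k + 1 : ℕ) : ℝ)), ‖g u‖ ^ 2 :=
    intervalIntegral.integral_nonneg hlt.le fun x _ => by positivity
  have hsplit : ∫ u in (Real.log (k : ℝ))..(Real.log ((k + 1 : ℕ) : ℝ)),
        ((2 * D : ℝ) * ‖g u‖ ^ 2 + 2 * (‖g u‖ * ‖g' u‖)) =
      (2 * D : ℝ) * (∫ u in (Real.log (k : ℝ))..(Real.log ((k + 1 : ℕ) : ℝ)), ‖g u‖ ^ 2) +
      ∫ u in (Real.log (k : ℝ))..(Real.log ((k + 1 : ℕ) : ℝ)), 2 * (‖g u‖ * ‖g' u‖) := by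
    rw [← intervalIntegral.integral_const_mul]
    have hc : Continuous fun u => (2 * D : ℝ) * ‖g u‖ ^ 2 := by fun_prop
    exact intervalIntegral.integral_add (hc.intervalIntegrable _ _) (hprod.intervalIntegrable _ _)
  rw [hsplit]
  set I1 := ∫ u in (Real.log (k : ℝ))..(Real.log ((k + 1 : ℕ) : ℝ)), ‖g u‖ ^ 2
  set I2 := ∫ u in (Real.log (k : ℝ))..(Real.log ((k + 1 : ℕ) : ℝ)), 2 * (‖g u‖ * ‖g' u‖)
  have h6 : L * ‖g (Real.log ((k + 1 : ℕ) : ℝ))‖ ^ 2 ≤ L * (2 * D * I1 + I2) := by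
    nlinarith
  exact le_of_mul_le_mul_left h6 hLpos

/-- MV -/
theorem mv : S_SCH → S_GAU → S_MV := by
  rintro ⟨C2, hC2, hS⟩ ⟨C1, hC1, hG⟩
  refine ⟨2 * (C1 * C2), by positivity, ?_⟩
  intro A T w D hT hD hA hdens
  rcases A.eq_empty_or_nonempty with hAe | ⟨a0, ha0⟩
  · subst hAe
    simp [EE]
  have hw : 0 ≤ w := by
    have h := hdens a0
    exact le_trans (Nat.cast_nonneg _) h
  set g := mvS A (fun _ => 1) with hg
  set g' := mvS A (fun a => 1 * (-(Complex.I * (a : ℂ)))) with hg'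
  have hd : ∀ u, HasDerivAt g (g' u) u := fun u => mvS_hasDerivAt A (fun _ => 1) u
  have hgc : Continuous g := mvS_cont _ _
  have hdc : Continuous g' := mvS_cont _ _
  have hsq : Continuous fun u => ‖g u‖ ^ 2 := hgc.norm.pow 2
  have hsq' : Continuous fun u => ‖g' u‖ ^ 2 := hdc.norm.pow 2
  have hprod : Continuous fun u => 2 * (‖g u‖ * ‖g' u‖) :=
    continuous_const.mul (hgc.norm.mul hdc.norm)
  have hEE : ∀ n : ℕ, EE A n = ‖g (Real.log n)‖ := by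
    intro n
    unfold EE
    rw [hg]
    unfold mvS
    simp only [one_mul]
  have h1 : ∑ n ∈ Ioc D (2 * D), EE A n ^ 2 =
      ∑ k ∈ Ico D (2 * D), ‖g (Real.log ((k + 1 : ℕ) : ℝ))‖ ^ 2 := by
    rw [Finset.sum_Ico_add' (fun k : ℕ => ‖g (Real.log (k : ℝ))‖ ^ 2)]
    refine Finset.sum_congr ?_ fun n _ => by rw [hEE]
    ext k
    simp only [Finset.mem_Ioc, Finset.mem_Ico]
    omega
  have hcont : Continuous fun u => ((2 * D : ℝ) * ‖g u‖ ^ 2 + 2 * (‖g u‖ * ‖g' u‖)) :=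
    (continuous_const.mul hsq).add hprod
  have h2 : ∑ n ∈ Ioc D (2 * D), EE A n ^ 2 ≤
      ∫ u in (Real.log (D : ℝ))..(Real.log ((2 * D : ℕ) : ℝ)),
        ((2 * D : ℝ) * ‖g u‖ ^ 2 + 2 * (‖g u‖ * ‖g' u‖)) := by
    rw [h1]
    refine le_trans (Finset.sum_le_sum fun k hk => mv_step g g' hd hdc D k hD hk) ?_
    rw [intervalIntegral.sum_integral_adjacent_intervals_Ico (a := fun k : ℕ => Real.log (k : ℝ))
      (by omega) (fun k _ => hcont.intervalIntegrable _ _)]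
  have hD0 : (0 : ℝ) < D := by exact_mod_cast hD
  have hlog : Real.log ((2 * D : ℕ) : ℝ) ≤ Real.log D + 1 := by
    push_cast
    rw [Real.log_mul (by norm_num) hD0.ne']
    have := Real.log_two_lt_d9
    linarith
  have hlog2 : Real.log (D : ℝ) ≤ Real.log ((2 * D : ℕ) : ℝ) := by
    apply Real.log_le_log hD0
    push_cast
    linarith
  set x0 := Real.log (D : ℝ) with hx0
  have h3 : ∫ u in x0..(Real.log ((2 * D : ℕ) : ℝ)),
        ((2 * D : ℝ) * ‖g u‖ ^ 2 + 2 * (‖g u‖ * ‖g' u‖)) ≤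
      ∫ u in x0..(x0 + 1), ((2 * D : ℝ) * ‖g u‖ ^ 2 + 2 * (‖g u‖ * ‖g' u‖)) := by
    rw [← intervalIntegral.integral_add_adjacent_intervals (a := x0)
      (b := Real.log ((2 * D : ℕ) : ℝ)) (c := x0 + 1)
      (hcont.intervalIntegrable _ _) (hcont.intervalIntegrable _ _)]
    have : 0 ≤ ∫ u in (Real.log ((2 * D : ℕ) : ℝ))..(x0 + 1),
        ((2 * D : ℝ) * ‖g u‖ ^ 2 + 2 * (‖g u‖ * ‖g' u‖)) :=
      intervalIntegral.integral_nonneg hlog fun x _ => by positivity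
    linarith
  have hT0 : 0 < T := by linarith
  have h4 : ∫ u in x0..(x0 + 1), ((2 * D : ℝ) * ‖g u‖ ^ 2 + 2 * (‖g u‖ * ‖g' u‖)) ≤
      ∫ u in x0..(x0 + 1), ((2 * D + T : ℝ) * ‖g u‖ ^ 2 + (1 / T) * ‖g' u‖ ^ 2) := by
    apply intervalIntegral.integral_mono_on (by linarith) (hcont.intervalIntegrable _ _)
      ((by fun_prop : Continuous fun u => ((2 * D + T : ℝ) * ‖g u‖ ^ 2 +
        (1 / T) * ‖g' u‖ ^ 2)).intervalIntegrable _ _)
    intro u _
    show (2 * D : ℝ) * ‖g u‖ ^ 2 + 2 * (‖g u‖ * ‖g' u‖) ≤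
      (2 * D + T : ℝ) * ‖g u‖ ^ 2 + (1 / T) * ‖g' u‖ ^ 2
    have h5 : 2 * (‖g u‖ * ‖g' u‖) ≤ T * ‖g u‖ ^ 2 + (1 / T) * ‖g' u‖ ^ 2 := by
      have h6 : 0 ≤ (T * ‖g u‖ - ‖g' u‖) ^ 2 / T := by positivity
      have h7 : (T * ‖g u‖ - ‖g' u‖) ^ 2 / T =
          T * ‖g u‖ ^ 2 + (1 / T) * ‖g' u‖ ^ 2 - 2 * (‖g u‖ * ‖g' u‖) := by
        field_simp
        ring
      rw [h7] at h6
      linarith
    have h7' : (2 * D + T : ℝ) * ‖g u‖ ^ 2 + (1 / T) * ‖g' u‖ ^ 2 =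
        (2 * D : ℝ) * ‖g u‖ ^ 2 + (T * ‖g u‖ ^ 2 + (1 / T) * ‖g' u‖ ^ 2) := by ring
    rw [h7']
    exact add_le_add_right h5 _
  have hsplit : ∫ u in x0..(x0 + 1), ((2 * D + T : ℝ) * ‖g u‖ ^ 2 + (1 / T) * ‖g' u‖ ^ 2) =
      (2 * D + T : ℝ) * (∫ u in x0..(x0 + 1), ‖g u‖ ^ 2) +
      (1 / T) * ∫ u in x0..(x0 + 1), ‖g' u‖ ^ 2 := by
    rw [← intervalIntegral.integral_const_mul, ← intervalIntegral.integral_const_mul]
    have hc1 : Continuous fun u => (2 * D + T : ℝ) * ‖g u‖ ^ 2 := by fun_prop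
    have hc2 : Continuous fun u => (1 / T) * ‖g' u‖ ^ 2 := by fun_prop
    exact intervalIntegral.integral_add (hc1.intervalIntegrable _ _) (hc2.intervalIntegrable _ _)
  rw [hsplit] at h4
  have hW : ∀ a ∈ A, ∑ b ∈ A, Real.exp (-(a - b) ^ 2 / 2) ≤ C2 * w := hS A w hdens
  have h8 : ∫ u in x0..(x0 + 1), ‖g u‖ ^ 2 ≤ C1 * (C2 * w) * A.card := by
    have h := hG A (fun _ => 1) (C2 * w) x0 hW
    simp only [norm_one, one_pow, Finset.sum_const, nsmul_eq_mul, mul_one] at h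
    exact h
  have h9 : ∫ u in x0..(x0 + 1), ‖g' u‖ ^ 2 ≤ C1 * (C2 * w) * (A.card * T ^ 2) := by
    have h := hG A (fun a => 1 * (-(Complex.I * (a : ℂ)))) (C2 * w) x0 hW
    refine le_trans h ?_
    apply mul_le_mul_of_nonneg_left _ (by positivity)
    calc ∑ a ∈ A, ‖1 * (-(Complex.I * (a : ℂ)))‖ ^ 2 ≤ ∑ _a ∈ A, T ^ 2 := by
          apply Finset.sum_le_sum
          intro a ha
          rw [one_mul, norm_neg, norm_mul, Complex.norm_I, one_mul, Complex.norm_real,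
            Real.norm_eq_abs]
          exact pow_le_pow_left₀ (abs_nonneg _) (hA a ha) 2
      _ = A.card * T ^ 2 := by rw [Finset.sum_const, nsmul_eq_mul]
  have h10 : (2 * D + T : ℝ) * (∫ u in x0..(x0 + 1), ‖g u‖ ^ 2) ≤
      (2 * D + T) * (C1 * (C2 * w) * A.card) :=
    mul_le_mul_of_nonneg_left h8 (by positivity)
  have h11 : (1 / T) * (∫ u in x0..(x0 + 1), ‖g' u‖ ^ 2) ≤
      (1 / T) * (C1 * (C2 * w) * (A.card * T ^ 2)) :=
    mul_le_mul_of_nonneg_left h9 (by positivity)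
  have h12 : (1 / T) * (C1 * (C2 * w) * (A.card * T ^ 2)) = T * (C1 * (C2 * w) * A.card) := by
    field_simp
  calc ∑ n ∈ Ioc D (2 * D), EE A n ^ 2
      ≤ (2 * D + T) * (C1 * (C2 * w) * A.card) + T * (C1 * (C2 * w) * A.card) := by
        rw [h12] at h11
        linarith
    _ = 2 * (C1 * C2) * (D + T) * A.card * w := by ring

end Pool.Agent.H452R4.LI
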