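import Pool.Agent.H452R4.LI.Defs

/-! Project LI: three elementary lemmas (PLAIN, EXC, SPL). -/

set_option autoImplicit false

open Finset ArithmeticFunction MeasureTheory intervalIntegral

namespace Pool.Agent.H452R4.LI

namespace PESx

theorem rpow_half (x : ℝ) (hx : 0 ≤ x) : x ^ (-(1 / 2 : ℝ)) = (Real.sqrt x)⁻¹ := by
  rw [Real.rpow_neg hx, ← Real.sqrt_eq_rpow]

theorem step (M : ℕ) : ((M : ℝ) + 1) ^ (-(1 / 2 : ℝ)) ≤
    2 * Real.sqrt (M + 1) - 2 * Real.sqrt M := by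
  rw [rpow_half _ (by positivity)]
  have h1 : 0 < Real.sqrt ((M : ℝ) + 1) := Real.sqrt_pos.2 (by positivity)
  have h2 : Real.sqrt ((M : ℝ) + 1) ^ 2 = M + 1 := Real.sq_sqrt (by positivity)
  have h3 : Real.sqrt (M : ℝ) ^ 2 = M := Real.sq_sqrt (by positivity)
  have h4 : 0 ≤ Real.sqrt (M : ℝ) := Real.sqrt_nonneg _
  rw [inv_le_iff_one_le_mul₀ h1]
  nlinarith [sq_nonneg (Real.sqrt ((M : ℝ) + 1) - Real.sqrt M)]

theorem sum_le (M : ℕ) : ∑ n ∈ Ico 1 (M + 1), (n : ℝ) ^ (-(1 / 2 : ℝ)) ≤ 2 * Real.sqrt M := by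
  induction M with
  | zero => simp
  | succ M ih =>
    rw [Finset.sum_Ico_succ_top (by omega)]
    have := step M
    push_cast
    linarith

theorem dens_nonneg {A : Finset ℝ} {w : ℝ} (h : dens A w) : 0 ≤ w :=
  (Nat.cast_nonneg _).trans (h 0)

theorem dens_mul {A : Finset ℝ} {w : ℝ} (h : dens A w) (x0 : ℝ) (M : ℕ) :
    ((A.filter (fun a => x0 ≤ a ∧ a < x0 + M)).card : ℝ) ≤ w * M := by
  induction M with
  | zero =>
    have : A.filter (fun a => x0 ≤ a ∧ a < x0 + ((0 : ℕ) : ℝ)) = ∅ := by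
      refine Finset.filter_eq_empty_iff.2 fun a _ ha => ?_
      push_cast at ha
      linarith [ha.1, ha.2]
    rw [this]
    simp
  | succ M ih =>
    have hsub : A.filter (fun a => x0 ≤ a ∧ a < x0 + ((M + 1 : ℕ) : ℝ)) ⊆
        A.filter (fun a => x0 ≤ a ∧ a < x0 + M) ∪
          A.filter (fun a => x0 + M ≤ a ∧ a < x0 + M + 1) := by
      intro a ha
      rw [Finset.mem_filter] at ha
      rw [Finset.mem_union, Finset.mem_filter, Finset.mem_filter]
      obtain ⟨haA, h1, h2⟩ := ha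
      push_cast at h2
      rcases lt_or_ge a (x0 + M) with h3 | h3
      · exact Or.inl ⟨haA, h1, h3⟩
      · exact Or.inr ⟨haA, h3, by linarith⟩
    have h1 := (Finset.card_le_card hsub).trans (Finset.card_union_le _ _)
    have h2 : ((A.filter (fun a => x0 ≤ a ∧ a < x0 + ((M + 1 : ℕ) : ℝ))).card : ℝ) ≤
        ((A.filter (fun a => x0 ≤ a ∧ a < x0 + M)).card : ℝ) +
          ((A.filter (fun a => x0 + M ≤ a ∧ a < x0 + M + 1)).card : ℝ) := by exact_mod_cast h1
    have h3 := h (x0 + M)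
    push_cast
    push_cast at h2
    linarith

end PESx

open PESx

theorem plain : S_PLAIN := by
  intro N hN
  obtain ⟨M, rfl⟩ : ∃ M, N = M + 1 := ⟨N - 1, by omega⟩
  have hlog : 0 ≤ Real.log ((M + 1 : ℕ) : ℝ) := Real.log_natCast_nonneg _
  calc ∑ n ∈ Ico 1 (M + 1), vonMangoldt n * (n : ℝ) ^ (-(1 / 2 : ℝ))
      ≤ ∑ n ∈ Ico 1 (M + 1), Real.log ((M + 1 : ℕ) : ℝ) * (n : ℝ) ^ (-(1 / 2 : ℝ)) := by
        refine Finset.sum_le_sum fun n hn => ?_
        rw [Finset.mem_Ico] at hn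
        refine mul_le_mul_of_nonneg_right ?_ (Real.rpow_nonneg (Nat.cast_nonneg _) _)
        refine vonMangoldt_le_log.trans (Real.log_le_log ?_ ?_)
        · exact_mod_cast hn.1
        · exact_mod_cast hn.2.le
    _ = Real.log ((M + 1 : ℕ) : ℝ) * ∑ n ∈ Ico 1 (M + 1), (n : ℝ) ^ (-(1 / 2 : ℝ)) := by
        rw [Finset.mul_sum]
    _ ≤ Real.log ((M + 1 : ℕ) : ℝ) * (2 * Real.sqrt ((M + 1 : ℕ) : ℝ)) := by
        refine mul_le_mul_of_nonneg_left ((sum_le M).trans ?_) hlog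
        refine mul_le_mul_of_nonneg_left (Real.sqrt_le_sqrt ?_) (by norm_num)
        push_cast
        linarith
    _ = 2 * Real.sqrt ((M + 1 : ℕ) : ℝ) * Real.log ((M + 1 : ℕ) : ℝ) := by ring

theorem exc : S_EXC := by
  refine ⟨?_, ?_⟩
  · intro A B w t0 c ht hB
    have hw := dens_nonneg hB
    have hone : ∀ a : ℝ, ((B.filter (fun b => |a + b + c| < t0)).card : ℝ) ≤
        w * (2 * t0 + 2) := by
      intro a
      have hsub : B.filter (fun b => |a + b + c| < t0) ⊆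
          B.filter (fun b => (-a - c - t0) ≤ b ∧ b < (-a - c - t0) + (⌈2 * t0⌉₊ : ℕ)) := by
        intro b hb
        rw [Finset.mem_filter] at hb ⊢
        obtain ⟨h1, h2⟩ := abs_lt.1 hb.2
        refine ⟨hb.1, by linarith, ?_⟩
        have := Nat.le_ceil (2 * t0)
        linarith
      have h1 : ((B.filter (fun b => |a + b + c| < t0)).card : ℝ) ≤
          ((B.filter (fun b => (-a - c - t0) ≤ b ∧
            b < (-a - c - t0) + (⌈2 * t0⌉₊ : ℕ))).card : ℝ) := by
        exact_mod_cast Finset.card_le_card hsub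
      refine h1.trans ((dens_mul hB _ _).trans (mul_le_mul_of_nonneg_left ?_ hw))
      have := (Nat.ceil_lt_add_one (by linarith : 0 ≤ 2 * t0)).le
      linarith
    have hcard : (((A ×ˢ B).filter (fun x : ℝ × ℝ => |x.1 + x.2 + c| < t0)).card : ℝ) =
        ∑ a ∈ A, ((B.filter (fun b => |a + b + c| < t0)).card : ℝ) := by
      rw [Finset.card_filter, Finset.sum_product]
      push_cast
      refine Finset.sum_congr rfl fun a _ => ?_
      rw [Finset.card_filter]
      push_cast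
      rfl
    rw [hcard]
    calc ∑ a ∈ A, ((B.filter (fun b => |a + b + c| < t0)).card : ℝ)
        ≤ ∑ a ∈ A, w * (2 * t0 + 2) := Finset.sum_le_sum fun a _ => hone a
      _ = A.card * (w * (2 * t0 + 2)) := by rw [Finset.sum_const, nsmul_eq_mul]
  · intro A w T hT hA hd
    have hw := dens_nonneg hd
    have hsub : A ⊆ A.filter (fun a => -T ≤ a ∧ a < -T + (⌊2 * T⌋₊ + 1 : ℕ)) := by
      intro a ha
      rw [Finset.mem_filter]
      obtain ⟨h1, h2⟩ := abs_le.1 (hA a ha)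
      refine ⟨ha, h1, ?_⟩
      have := Nat.lt_floor_add_one (2 * T)
      push_cast
      linarith
    have h1 : (A.card : ℝ) ≤
        ((A.filter (fun a => -T ≤ a ∧ a < -T + (⌊2 * T⌋₊ + 1 : ℕ))).card : ℝ) := by
      exact_mod_cast Finset.card_le_card hsub
    refine h1.trans ((dens_mul hd _ _).trans (mul_le_mul_of_nonneg_left ?_ hw))
    have := Nat.floor_le (by linarith : 0 ≤ 2 * T)
    push_cast
    linarith

theorem spl : S_SPL := by
  intro A B c n P _
  have hfull : ∑ x ∈ A ×ˢ B, Real.cos ((x.1 + x.2 + c) * Real.log n) =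
      (Complex.exp (-(Complex.I * ((c * Real.log n : ℝ) : ℂ))) *
        ((∑ a ∈ A, Complex.exp (-(Complex.I * ((a * Real.log n : ℝ) : ℂ)))) *
          (∑ b ∈ B, Complex.exp (-(Complex.I * ((b * Real.log n : ℝ) : ℂ)))))).re := by
    rw [Finset.sum_mul_sum, ← Finset.sum_product', Finset.mul_sum, Complex.re_sum]
    refine Finset.sum_congr rfl fun x _ => ?_
    rw [← Complex.exp_add, ← Complex.exp_add]
    have e : -(Complex.I * ((c * Real.log n : ℝ) : ℂ)) +
        (-(Complex.I * ((x.1 * Real.log n : ℝ) : ℂ)) +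
          -(Complex.I * ((x.2 * Real.log n : ℝ) : ℂ))) =
        ((-((x.1 + x.2 + c) * Real.log n) : ℝ) : ℂ) * Complex.I := by
      push_cast
      ring
    rw [e, Complex.exp_ofReal_mul_I_re, Real.cos_neg]
  have hnorm : |∑ x ∈ A ×ˢ B, Real.cos ((x.1 + x.2 + c) * Real.log n)| ≤ EE A n * EE B n := by
    rw [hfull]
    refine (Complex.abs_re_le_norm _).trans ?_
    rw [norm_mul, norm_mul]
    have e : ‖Complex.exp (-(Complex.I * ((c * Real.log n : ℝ) : ℂ)))‖ = 1 := by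
      have : -(Complex.I * ((c * Real.log n : ℝ) : ℂ)) =
          ((-(c * Real.log n) : ℝ) : ℂ) * Complex.I := by push_cast; ring
      rw [this, Complex.norm_exp_ofReal_mul_I]
    rw [e, one_mul]
    exact le_refl _
  have hsplit := Finset.sum_filter_add_sum_filter_not (A ×ˢ B) P
    (fun x : ℝ × ℝ => Real.cos ((x.1 + x.2 + c) * Real.log n))
  have hrest : |∑ x ∈ (A ×ˢ B).filter (fun x => ¬ P x),
      Real.cos ((x.1 + x.2 + c) * Real.log n)| ≤
      (((A ×ˢ B).filter (fun x => ¬ P x)).card : ℝ) := by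
    refine (Finset.abs_sum_le_sum_abs _ _).trans ?_
    calc ∑ x ∈ (A ×ˢ B).filter (fun x => ¬ P x), |Real.cos ((x.1 + x.2 + c) * Real.log n)|
        ≤ ∑ x ∈ (A ×ˢ B).filter (fun x => ¬ P x), (1 : ℝ) :=
          Finset.sum_le_sum fun x _ => Real.abs_cos_le_one _
      _ = _ := by rw [Finset.sum_const, nsmul_eq_mul, mul_one]
  have e : ∑ x ∈ (A ×ˢ B).filter P, Real.cos ((x.1 + x.2 + c) * Real.log n) =
      ∑ x ∈ A ×ˢ B, Real.cos ((x.1 + x.2 + c) * Real.log n) -
        ∑ x ∈ (A ×ˢ B).filter (fun x => ¬ P x), Real.cos ((x.1 + x.2 + c) * Real.log n) := by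
    linarith
  rw [e]
  refine (abs_sub _ _).trans ?_
  linarith

end Pool.Agent.H452R4.LI
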