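import Mathlib
import Pool.Agent.H452R4.LI.Defs

set_option autoImplicit false

open Finset

namespace Pool.Agent.H452R4.LI

theorem SCH_summable : Summable fun k : ℤ => Real.exp (-|(k : ℝ)|) := by
  refine Summable.of_nat_of_neg ?_ ?_
  · refine Real.summable_exp_neg_nat.congr ?_
    intro n
    simp
  · refine Real.summable_exp_neg_nat.congr ?_
    intro n
    simp

theorem SCH_pt (a b : ℝ) :
    Real.exp (-(a - b) ^ 2 / 2) ≤ Real.exp (3 / 2) * Real.exp (-|((⌊b - a⌋ : ℤ) : ℝ)|) := by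
  rw [← Real.exp_add]
  apply Real.exp_le_exp.2
  have h1 : ((⌊b - a⌋ : ℤ) : ℝ) ≤ b - a := Int.floor_le _
  have h2 : b - a < ((⌊b - a⌋ : ℤ) : ℝ) + 1 := Int.lt_floor_add_one _
  set k : ℝ := ((⌊b - a⌋ : ℤ) : ℝ) with hk
  have h3 : |k| ≤ |b - a| + 1 := by
    have h4 : |k - (b - a)| ≤ 1 := by
      rw [abs_le]
      constructor <;> linarith
    have h5 : |k| ≤ |k - (b - a)| + |b - a| := by
      have := abs_add_le (k - (b - a)) (b - a)
      simpa using this
    linarith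
  have h6 : (a - b) ^ 2 = |b - a| ^ 2 := by
    rw [sq_abs]
    ring
  have h7 : 0 ≤ (|b - a| - 1) ^ 2 := sq_nonneg _
  rw [h6]
  nlinarith

theorem sch : S_SCH := by
  have hpos : 0 < ∑' k : ℤ, Real.exp (-|(k : ℝ)|) :=
    SCH_summable.tsum_pos (fun k => (Real.exp_pos _).le) 0 (Real.exp_pos _)
  refine ⟨Real.exp (3 / 2) * ∑' k : ℤ, Real.exp (-|(k : ℝ)|),
    mul_pos (Real.exp_pos _) hpos, ?_⟩
  intro A w hw a _
  have hw0 : 0 ≤ w := le_trans (Nat.cast_nonneg _) (hw 0)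
  calc ∑ b ∈ A, Real.exp (-(a - b) ^ 2 / 2)
      ≤ ∑ b ∈ A, Real.exp (3 / 2) * Real.exp (-|((⌊b - a⌋ : ℤ) : ℝ)|) :=
        Finset.sum_le_sum fun b _ => SCH_pt a b
    _ = Real.exp (3 / 2) * ∑ b ∈ A, Real.exp (-|((⌊b - a⌋ : ℤ) : ℝ)|) := by
        rw [Finset.mul_sum]
    _ = Real.exp (3 / 2) * ∑ k ∈ A.image (fun b => ⌊b - a⌋),
          ((A.filter (fun b => ⌊b - a⌋ = k)).card : ℝ) * Real.exp (-|(k : ℝ)|) := by
        rw [Finset.sum_comp (fun k : ℤ => Real.exp (-|(k : ℝ)|)) (fun b : ℝ => ⌊b - a⌋)]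
        simp only [nsmul_eq_mul]
    _ ≤ Real.exp (3 / 2) * ∑ k ∈ A.image (fun b => ⌊b - a⌋), w * Real.exp (-|(k : ℝ)|) := by
        apply mul_le_mul_of_nonneg_left _ (Real.exp_pos _).le
        apply Finset.sum_le_sum
        intro k _
        apply mul_le_mul_of_nonneg_right _ (Real.exp_pos _).le
        refine le_trans ?_ (hw (a + k))
        norm_cast
        apply Finset.card_le_card
        intro b hb
        rw [Finset.mem_filter] at hb ⊢
        refine ⟨hb.1, ?_⟩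
        have h := Int.floor_eq_iff.1 hb.2
        constructor <;> linarith [h.1, h.2]
    _ = Real.exp (3 / 2) * (w * ∑ k ∈ A.image (fun b => ⌊b - a⌋), Real.exp (-|(k : ℝ)|)) := by
        congr 1
        rw [Finset.mul_sum]
    _ ≤ Real.exp (3 / 2) * (w * ∑' k : ℤ, Real.exp (-|(k : ℝ)|)) := by
        apply mul_le_mul_of_nonneg_left _ (Real.exp_pos _).le
        apply mul_le_mul_of_nonneg_left _ hw0
        exact SCH_summable.sum_le_tsum _ (fun k _ => (Real.exp_pos _).le)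
    _ = Real.exp (3 / 2) * (∑' k : ℤ, Real.exp (-|(k : ℝ)|)) * w := by ring

end Pool.Agent.H452R4.LI
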