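import Pool.Agent.H452R4.LI.Defs
import Pool.Agent.H370R2.Count
import Pool.Agent.H370R2.DirGood

/-! ZC: ordinates in unit intervals. -/

set_option autoImplicit false

open Finset ArithmeticFunction MeasureTheory intervalIntegral

namespace Pool.Agent.H452R4.LI

namespace ZCaux

/-- the point of the critical line -/
noncomputable def pt (γ : ℝ) : ℂ := 1 / 2 + Complex.I * (γ : ℂ)

theorem pt_re (γ : ℝ) : (pt γ).re = 1 / 2 := by
  simp [pt]

theorem pt_im (γ : ℝ) : (pt γ).im = γ := by
  simp [pt]

theorem pt_inj : Function.Injective pt := by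
  intro a b h
  have := congrArg Complex.im h
  rwa [pt_im, pt_im] at this

/-- few zeros on a compact part of the critical line -/
theorem small_finite : {γ : ℝ | 0 < γ ∧ γ ≤ 4 ∧ riemannZeta (pt γ) = 0}.Finite := by
  by_contra hinf
  have hinf : {γ : ℝ | 0 < γ ∧ γ ≤ 4 ∧ riemannZeta (pt γ) = 0}.Infinite := hinf
  have himg := hinf.image (f := pt) pt_inj.injOn
  set K : Set ℂ := (Set.Icc (1 / 2 : ℝ) (1 / 2)) ×ℂ (Set.Icc (0 : ℝ) 4) with hK
  have hcomp : IsCompact K := isCompact_Icc.reProdIm isCompact_Icc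
  have hsub : pt '' {γ : ℝ | 0 < γ ∧ γ ≤ 4 ∧ riemannZeta (pt γ) = 0} ⊆ K := by
    rintro _ ⟨γ, ⟨h1, h2, _⟩, rfl⟩
    rw [hK, Complex.mem_reProdIm, pt_re, pt_im]
    exact ⟨⟨le_rfl, le_rfl⟩, ⟨h1.le, h2⟩⟩
  obtain ⟨z, hzK, hz⟩ := himg.exists_accPt_of_subset_isCompact hcomp hsub
  rw [hK, Complex.mem_reProdIm] at hzK
  have hz1 : z ≠ 1 := by
    intro h
    rw [h] at hzK
    have := hzK.1.2
    simp at this
    norm_num at this
  have hfreq : ∃ᶠ w in nhdsWithin z {z}ᶜ, riemannZeta w = 0 := by
    rw [accPt_iff_frequently_nhdsNE] at hz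
    refine hz.mono ?_
    rintro w ⟨γ, ⟨_, _, h3⟩, rfl⟩
    exact h3
  have hU : IsPreconnected ({1}ᶜ : Set ℂ) :=
    (isConnected_compl_singleton_of_one_lt_rank (by simp) (1 : ℂ)).isPreconnected
  have hAn : AnalyticOnNhd ℂ riemannZeta ({1}ᶜ : Set ℂ) := by
    apply DifferentiableOn.analyticOnNhd _ isOpen_compl_singleton
    intro w hw
    exact (differentiableAt_riemannZeta hw).differentiableWithinAt
  have h0 := hAn.eqOn_zero_of_preconnected_of_frequently_eq_zero hU (show z ∈ ({1}ᶜ : Set ℂ) from hz1)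
    hfreq
  have h2 : riemannZeta 2 = 0 := h0 (show (2 : ℂ) ∈ ({1}ᶜ : Set ℂ) by
    simp)
  exact riemannZeta_ne_zero_of_one_le_re (by simp) h2

end ZCaux

open ZCaux in
theorem zc : S_ZC := by
  classical
  obtain ⟨C, hC, hcount⟩ := H370.zcount H370.good_zeta
  set B : ℕ := small_finite.toFinset.card with hB
  refine ⟨2 * C + B + 1, by positivity, ?_⟩
  intro T A hT hA x
  have hlogT : 1 < Real.log T := by
    rw [Real.lt_log_iff_exp_lt (by linarith)]
    exact lt_of_lt_of_le (lt_trans Real.exp_one_lt_d9 (by norm_num)) hT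
  by_cases hx : x < 3
  · have h1 : (A.filter (fun a => x ≤ a ∧ a < x + 1)) ⊆ small_finite.toFinset := by
      intro γ hγ
      rw [Finset.mem_filter] at hγ
      rw [Set.Finite.mem_toFinset]
      obtain ⟨h2, h3, h4⟩ := hA γ hγ.1
      exact ⟨h2, by linarith [hγ.2.2], h4⟩
    have h2 : ((A.filter (fun a => x ≤ a ∧ a < x + 1)).card : ℝ) ≤ B := by
      exact_mod_cast Finset.card_le_card h1
    refine h2.trans ?_
    have h3 : (0:ℝ) ≤ B := Nat.cast_nonneg _
    nlinarith
  · push Not at hx
    by_cases hxT : T < x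
    · have h1 : A.filter (fun a => x ≤ a ∧ a < x + 1) = ∅ := by
        apply Finset.filter_eq_empty_iff.2
        intro γ hγ h2
        linarith [(hA γ hγ).2.1, h2.1]
      rw [h1]
      simp
      positivity
    · push Not at hxT
      have hcnt := hcount (x + 1 / 2) (by linarith)
      have hT2 : (1:ℝ) ≤ (x + 1 / 2) - 1 := by linarith
      rw [H370.NN_eq_sum H370.good_zeta _ _ hT2] at hcnt
      have himg : ((A.filter (fun a => x ≤ a ∧ a < x + 1)).image pt) ⊆
          (H370.zset_finite H370.good_zeta ((x + 1 / 2) - 1) ((x + 1 / 2) + 1) hT2).toFinset := by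
        intro s hs
        rw [Finset.mem_image] at hs
        obtain ⟨γ, hγ, rfl⟩ := hs
        rw [Finset.mem_filter] at hγ
        rw [Set.Finite.mem_toFinset]
        refine ⟨?_, ?_, ?_, ?_, (hA γ hγ.1).2.2⟩
        · rw [pt_re]; norm_num
        · rw [pt_re]; norm_num
        · rw [pt_im]; linarith [hγ.2.1]
        · rw [pt_im]; linarith [hγ.2.2]
      have hcard : ((A.filter (fun a => x ≤ a ∧ a < x + 1)).card : ℝ) ≤
          ((∑ s ∈ (H370.zset_finite H370.good_zeta ((x + 1 / 2) - 1) ((x + 1 / 2) + 1)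
            hT2).toFinset, H370.mult riemannZeta s : ℕ) : ℝ) := by
        rw [← Finset.card_image_of_injective _ pt_inj]
        have h3 : ((A.filter (fun a => x ≤ a ∧ a < x + 1)).image pt).card ≤
            (H370.zset_finite H370.good_zeta ((x + 1 / 2) - 1) ((x + 1 / 2) + 1)
              hT2).toFinset.card := Finset.card_le_card himg
        have h4 : (H370.zset_finite H370.good_zeta ((x + 1 / 2) - 1) ((x + 1 / 2) + 1)
              hT2).toFinset.card ≤ ∑ s ∈ (H370.zset_finite H370.good_zeta ((x + 1 / 2) - 1)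
                ((x + 1 / 2) + 1) hT2).toFinset, H370.mult riemannZeta s := by
          rw [Finset.card_eq_sum_ones]
          apply Finset.sum_le_sum
          intro s hs
          rw [Set.Finite.mem_toFinset] at hs
          obtain ⟨h5, h6, h7, h8, h9⟩ := hs
          have hs1 : s ≠ 1 := by
            intro h; rw [h] at h6; simp at h6
          have hUpre : IsPreconnected ({1}ᶜ : Set ℂ) :=
            (isConnected_compl_singleton_of_one_lt_rank (by simp) (1 : ℂ)).isPreconnected
          have hAn : AnalyticOnNhd ℂ riemannZeta ({1}ᶜ : Set ℂ) := by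
            apply DifferentiableOn.analyticOnNhd _ isOpen_compl_singleton
            intro w hw
            exact (differentiableAt_riemannZeta hw).differentiableWithinAt
          exact (H370.Loc.mult_pos hUpre hAn (c := 2) (by simp)
            (riemannZeta_ne_zero_of_one_le_re (by simp)) (show s ∈ ({1}ᶜ : Set ℂ) from hs1)).2 h9
        exact_mod_cast h3.trans h4
      refine hcard.trans (hcnt.trans ?_)
      have h10 : Real.log (x + 1 / 2) ≤ 2 * Real.log T := by
        have h11 : x + 1 / 2 ≤ T ^ 2 := by nlinarith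
        calc Real.log (x + 1 / 2) ≤ Real.log (T ^ 2) := Real.log_le_log (by linarith) h11
          _ = 2 * Real.log T := by rw [Real.log_pow]; norm_num
      have h12 : C * Real.log (x + 1 / 2) ≤ C * (2 * Real.log T) := by gcongr
      have h13 : (0:ℝ) ≤ B := Nat.cast_nonneg _
      nlinarith

end Pool.Agent.H452R4.LI
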